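import Mathlib

set_option autoImplicit false

namespace Pool.Agent.Lib.MP_0c0609_co

/-- The constraints satisfied by the forced loads of three colours in one star with `m` leaves,
for the two possible colours of its centre. -/
def StarOK (m u0 u1 u2 v0 v1 v2 : ℕ) : Prop :=
  (u0 ≤ 1 ∧ v1 ≤ 1 ∧ u1 + u2 + v2 ≤ m ∧ v0 + u2 + v2 ≤ m) ∨
  (u0 ≤ 1 ∧ v2 ≤ 1 ∧ u2 + u1 + v1 ≤ m ∧ v0 + u1 + v1 ≤ m) ∨
  (u1 ≤ 1 ∧ v2 ≤ 1 ∧ u2 + u0 + v0 ≤ m ∧ v1 + u0 + v0 ≤ m) ∨
  u0 + u1 + u2 + v0 + v1 + v2 ≤ m + 1

theorem StarOK.generic {m u0 u1 u2 v0 v1 v2 : ℕ} (h : StarOK m u0 u1 u2 v0 v1 v2) :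
    u0 + v0 ≤ m + 1 ∧ u1 + v1 ≤ m + 1 ∧ u2 + v2 ≤ m + 1 ∧ u0 + u1 + u2 ≤ m + 1 ∧
    v0 + v1 + v2 ≤ m + 1 ∧ u0 + u1 + u2 + v2 ≤ m + 2 ∧ v0 + v1 + v2 + u0 ≤ m + 2 ∧
    u0 + v2 + u1 + v1 ≤ m + 2 := by
  unfold StarOK at h
  omega

theorem arith (M : ℕ) {u00 u01 u02 u10 u11 u12 u20 u21 u22 u30 u31 u32 u40 u41 u42 v00 v01 v02 v10 v11 v12 v20 v21 v22 v30 v31 v32 v40 v41 v42 : ℕ}
    (t0 : StarOK (3 * M) u00 u01 u02 v00 v01 v02)
    (t1 : StarOK (4 * M) u10 u11 u12 v10 v11 v12)
    (t2 : StarOK (4 * M) u20 u21 u22 v20 v21 v22)
    (t3 : StarOK (5 * M) u30 u31 u32 v30 v31 v32)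
    (t4 : StarOK (6 * M) u40 u41 u42 v40 v41 v42)
    (s0 : 11 * M + 4 ≤ u00 + u10 + u20 + u30 + u40 ∨
      11 * M + 4 ≤ u01 + u11 + u21 + u31 + u41 ∨
      11 * M + 4 ≤ u02 + u12 + u22 + u32 + u42)
    (s1 : 11 * M + 4 ≤ v00 + u10 + u20 + u30 + u40 ∨
      11 * M + 4 ≤ v01 + u11 + u21 + u31 + u41 ∨
      11 * M + 4 ≤ v02 + u12 + u22 + u32 + u42)
    (s2 : 11 * M + 4 ≤ u00 + v10 + u20 + u30 + u40 ∨
      11 * M + 4 ≤ u01 + v11 + u21 + u31 + u41 ∨
      11 * M + 4 ≤ u02 + v12 + u22 + u32 + u42)
    (s3 : 11 * M + 4 ≤ v00 + v10 + u20 + u30 + u40 ∨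
      11 * M + 4 ≤ v01 + v11 + u21 + u31 + u41 ∨
      11 * M + 4 ≤ v02 + v12 + u22 + u32 + u42)
    (s4 : 11 * M + 4 ≤ u00 + u10 + v20 + u30 + u40 ∨
      11 * M + 4 ≤ u01 + u11 + v21 + u31 + u41 ∨
      11 * M + 4 ≤ u02 + u12 + v22 + u32 + u42)
    (s5 : 11 * M + 4 ≤ v00 + u10 + v20 + u30 + u40 ∨
      11 * M + 4 ≤ v01 + u11 + v21 + u31 + u41 ∨
      11 * M + 4 ≤ v02 + u12 + v22 + u32 + u42)
    (s6 : 11 * M + 4 ≤ u00 + v10 + v20 + u30 + u40 ∨
      11 * M + 4 ≤ u01 + v11 + v21 + u31 + u41 ∨
      11 * M + 4 ≤ u02 + v12 + v22 + u32 + u42)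
    (s7 : 11 * M + 4 ≤ v00 + v10 + v20 + u30 + u40 ∨
      11 * M + 4 ≤ v01 + v11 + v21 + u31 + u41 ∨
      11 * M + 4 ≤ v02 + v12 + v22 + u32 + u42)
    (s8 : 11 * M + 4 ≤ u00 + u10 + u20 + v30 + u40 ∨
      11 * M + 4 ≤ u01 + u11 + u21 + v31 + u41 ∨
      11 * M + 4 ≤ u02 + u12 + u22 + v32 + u42)
    (s9 : 11 * M + 4 ≤ v00 + u10 + u20 + v30 + u40 ∨
      11 * M + 4 ≤ v01 + u11 + u21 + v31 + u41 ∨
      11 * M + 4 ≤ v02 + u12 + u22 + v32 + u42)
    (s10 : 11 * M + 4 ≤ u00 + v10 + u20 + v30 + u40 ∨
      11 * M + 4 ≤ u01 + v11 + u21 + v31 + u41 ∨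
      11 * M + 4 ≤ u02 + v12 + u22 + v32 + u42)
    (s11 : 11 * M + 4 ≤ v00 + v10 + u20 + v30 + u40 ∨
      11 * M + 4 ≤ v01 + v11 + u21 + v31 + u41 ∨
      11 * M + 4 ≤ v02 + v12 + u22 + v32 + u42)
    (s12 : 11 * M + 4 ≤ u00 + u10 + v20 + v30 + u40 ∨
      11 * M + 4 ≤ u01 + u11 + v21 + v31 + u41 ∨
      11 * M + 4 ≤ u02 + u12 + v22 + v32 + u42)
    (s13 : 11 * M + 4 ≤ v00 + u10 + v20 + v30 + u40 ∨
      11 * M + 4 ≤ v01 + u11 + v21 + v31 + u41 ∨
      11 * M + 4 ≤ v02 + u12 + v22 + v32 + u42)
    (s14 : 11 * M + 4 ≤ u00 + v10 + v20 + v30 + u40 ∨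
      11 * M + 4 ≤ u01 + v11 + v21 + v31 + u41 ∨
      11 * M + 4 ≤ u02 + v12 + v22 + v32 + u42)
    (s15 : 11 * M + 4 ≤ v00 + v10 + v20 + v30 + u40 ∨
      11 * M + 4 ≤ v01 + v11 + v21 + v31 + u41 ∨
      11 * M + 4 ≤ v02 + v12 + v22 + v32 + u42)
    (s16 : 11 * M + 4 ≤ u00 + u10 + u20 + u30 + v40 ∨
      11 * M + 4 ≤ u01 + u11 + u21 + u31 + v41 ∨
      11 * M + 4 ≤ u02 + u12 + u22 + u32 + v42)
    (s17 : 11 * M + 4 ≤ v00 + u10 + u20 + u30 + v40 ∨
      11 * M + 4 ≤ v01 + u11 + u21 + u31 + v41 ∨
      11 * M + 4 ≤ v02 + u12 + u22 + u32 + v42)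
    (s18 : 11 * M + 4 ≤ u00 + v10 + u20 + u30 + v40 ∨
      11 * M + 4 ≤ u01 + v11 + u21 + u31 + v41 ∨
      11 * M + 4 ≤ u02 + v12 + u22 + u32 + v42)
    (s19 : 11 * M + 4 ≤ v00 + v10 + u20 + u30 + v40 ∨
      11 * M + 4 ≤ v01 + v11 + u21 + u31 + v41 ∨
      11 * M + 4 ≤ v02 + v12 + u22 + u32 + v42)
    (s20 : 11 * M + 4 ≤ u00 + u10 + v20 + u30 + v40 ∨
      11 * M + 4 ≤ u01 + u11 + v21 + u31 + v41 ∨
      11 * M + 4 ≤ u02 + u12 + v22 + u32 + v42)
    (s21 : 11 * M + 4 ≤ v00 + u10 + v20 + u30 + v40 ∨
      11 * M + 4 ≤ v01 + u11 + v21 + u31 + v41 ∨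
      11 * M + 4 ≤ v02 + u12 + v22 + u32 + v42)
    (s22 : 11 * M + 4 ≤ u00 + v10 + v20 + u30 + v40 ∨
      11 * M + 4 ≤ u01 + v11 + v21 + u31 + v41 ∨
      11 * M + 4 ≤ u02 + v12 + v22 + u32 + v42)
    (s23 : 11 * M + 4 ≤ v00 + v10 + v20 + u30 + v40 ∨
      11 * M + 4 ≤ v01 + v11 + v21 + u31 + v41 ∨
      11 * M + 4 ≤ v02 + v12 + v22 + u32 + v42)
    (s24 : 11 * M + 4 ≤ u00 + u10 + u20 + v30 + v40 ∨
      11 * M + 4 ≤ u01 + u11 + u21 + v31 + v41 ∨
      11 * M + 4 ≤ u02 + u12 + u22 + v32 + v42)
    (s25 : 11 * M + 4 ≤ v00 + u10 + u20 + v30 + v40 ∨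
      11 * M + 4 ≤ v01 + u11 + u21 + v31 + v41 ∨
      11 * M + 4 ≤ v02 + u12 + u22 + v32 + v42)
    (s26 : 11 * M + 4 ≤ u00 + v10 + u20 + v30 + v40 ∨
      11 * M + 4 ≤ u01 + v11 + u21 + v31 + v41 ∨
      11 * M + 4 ≤ u02 + v12 + u22 + v32 + v42)
    (s27 : 11 * M + 4 ≤ v00 + v10 + u20 + v30 + v40 ∨
      11 * M + 4 ≤ v01 + v11 + u21 + v31 + v41 ∨
      11 * M + 4 ≤ v02 + v12 + u22 + v32 + v42)
    (s28 : 11 * M + 4 ≤ u00 + u10 + v20 + v30 + v40 ∨
      11 * M + 4 ≤ u01 + u11 + v21 + v31 + v41 ∨
      11 * M + 4 ≤ u02 + u12 + v22 + v32 + v42)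
    (s29 : 11 * M + 4 ≤ v00 + u10 + v20 + v30 + v40 ∨
      11 * M + 4 ≤ v01 + u11 + v21 + v31 + v41 ∨
      11 * M + 4 ≤ v02 + u12 + v22 + v32 + v42)
    (s30 : 11 * M + 4 ≤ u00 + v10 + v20 + v30 + v40 ∨
      11 * M + 4 ≤ u01 + v11 + v21 + v31 + v41 ∨
      11 * M + 4 ≤ u02 + v12 + v22 + v32 + v42)
    (s31 : 11 * M + 4 ≤ v00 + v10 + v20 + v30 + v40 ∨
      11 * M + 4 ≤ v01 + v11 + v21 + v31 + v41 ∨
      11 * M + 4 ≤ v02 + v12 + v22 + v32 + v42)
    : False := by
  obtain ⟨g00, g01, g02, g03, g04, g05, g06, g07⟩ := t0.generic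
  obtain ⟨g10, g11, g12, g13, g14, g15, g16, g17⟩ := t1.generic
  obtain ⟨g20, g21, g22, g23, g24, g25, g26, g27⟩ := t2.generic
  obtain ⟨g30, g31, g32, g33, g34, g35, g36, g37⟩ := t3.generic
  obtain ⟨g40, g41, g42, g43, g44, g45, g46, g47⟩ := t4.generic
  unfold StarOK at t0 t1 t2 t3 t4
  rcases s0 with s0 | s0 | s0
  · rcases s31 with s31 | s31 | s31
    · clear * - s31 g00 g10 g20 g30 g40 s0; omega
    · rcases s3 with s3 | s3 | s3
      · rcases s24 with s24 | s24 | s24
        · clear * - s31 g00 s3 g36 g10 g20 s24 g30 g26 g06 g40 g16 g46; omega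
        · clear * - s24 g13 g23 g03 g46 g36 s0; omega
        · clear * - s31 s24 s3 g13 g04 g14 g03 g36 g23 g30 g46 g26 g40 s0; omega
      · clear * - g16 g33 s3 g23 g43 g06 s0; omega
      · clear * - s3 g15 g23 g33 g43 g05 s0; omega
    · rcases s3 with s3 | s3 | s3
      · rcases s24 with s24 | s24 | s24
        · clear * - s31 g00 s3 g10 g16 g20 s24 g30 g25 g06 g36 g40 g46; omega
        · clear * - s31 g40 s24 s3 g13 g04 g25 g14 g03 g36 g20 g33 g46 s0; omega
        · clear * - s24 g13 g23 g03 g45 g35 s0; omega
      · clear * - s31 s3 g25 g16 g33 g32 g43 g42 g06 s0; omega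
      · clear * - g15 g23 s3 g33 g43 g05 s0; omega
  · rcases s24 with s24 | s24 | s24
    · rcases s7 with s7 | s7 | s7
      · clear * - s7 s24 g00 g10 g20 g30 g40; omega
      · rcases s16 with s16 | s16 | s16
        · rcases s15 with s15 | s15 | s15
          · clear * - g40 g00 s15 g20 g30 s16 g10; omega
          · rcases s17 with s17 | s17 | s17
            · rcases s18 with s18 | s18 | s18
              · rcases s11 with s11 | s11 | s11
                · clear * - g26 g04 s11 g34 s15 g14 g43; omega
                · rcases s20 with s20 | s20 | s20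
                  · rcases s1 with s1 | s1 | s1
                    · clear * - s7 g23 g04 g00 g01 g16 s24 s11 g33 g27 g40 g37 g30 s18 g43 g21 s1 g17 s0; omega
                    · rcases t3 with ⟨t3a, t3b, t3c, t3d⟩ | ⟨t3a, t3b, t3c, t3d⟩ | ⟨t3a, t3b, t3c, t3d⟩ | t3
                      · clear * - g17 g00 s17 g01 g06 g20 s20 g41 g23 s11 t3b g03 t3c g40 t3a s18 g16 s0; omega
                      · clear * - s7 s24 g16 g07 s17 g17 g26 s20 g41 g27 g40 t3c t3d g06 s18 t3a s15 s0; omega
                      · clear * - s7 s24 g07 s17 t3a g17 g06 s20 g13 g20 g40 g27 s15 g16 t3d s18 g41 g03 s0; omega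
                      · rcases s31 with s31 | s31 | s31
                        · clear * - s7 s24 g07 s17 g01 s31 g26 g17 g27 g06 s16 g03 s15 t3 g40 g41 g16 s0; omega
                        · clear * - g01 t3 g11 g41 g21 s31 s0; omega
                        · clear * - g27 g04 s31 s17 s18 g13 g14 t3 g41 g07 g24 s15 s7 g44 s20 s0; omega
                    · clear * - s1 s17 g13 g33 g03 g23 g04 g40 g43 s0; omega
                  · clear * - g01 g11 g31 g21 s11 s20 g41; omega
                  · clear * - g03 s20 g13 g44 g23 s16 g33 g41 g22 s0; omega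
                · clear * - g37 s24 g04 s11 s17 s18 g34 g14 g17 g23 g41 s15 g21 g07 g43 g40 s0; omega
              · clear * - g44 g03 g23 s16 g33 s18 g16; omega
              · clear * - g03 s18 g13 g14 g33 g23 g41 s16 g44 s0; omega
            · clear * - g44 g13 g23 s16 g33 s17 g06; omega
            · clear * - s17 g04 g41 g03 g33 s16 g13 g23 g44 s0; omega
          · clear * - s7 s15 g17 g07 s16 g40 g31 g32 g41 g27 g43 g33 s0; omega
        · rcases t3 with ⟨t3a, t3b, t3c, t3d⟩ | ⟨t3a, t3b, t3c, t3d⟩ | ⟨t3a, t3b, t3c, t3d⟩ | t3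
          · rcases s27 with s27 | s27 | s27
            · rcases s15 with s15 | s15 | s15
              · rcases s6 with s6 | s6 | s6
                · clear * - s7 g14 g24 t3a t3c g43 g06 s6; omega
                · rcases t4 with ⟨t4a, t4b, t4c, t4d⟩ | ⟨t4a, t4b, t4c, t4d⟩ | ⟨t4a, t4b, t4c, t4d⟩ | t4
                  · rcases s9 with s9 | s9 | s9
                    · rcases s22 with s22 | s22 | s22
                      · clear * - t4d g00 s22 g10 t4a t3d t3a g20 s9; omega
                      · clear * - s24 g00 g26 t4d s15 g03 t4b g16 t3c t3d s9 t4a s22; omega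
                      · clear * - s7 s24 g03 s22 g17 g01 s6 g14 t3c g04 s15 g24 t3d t4a t4c t4d g27 s0; omega
                    · rcases s21 with s21 | s21 | s21
                      · rcases s18 with s18 | s18 | s18
                        · rcases s13 with s13 | s13 | s13
                          · clear * - t4d g00 s13 s18 g10 t4a t3d g20 t3a; omega
                          · clear * - g13 g14 s13 t4d s18 t3a g06 s21 g26 t4c t3b; omega
                          · clear * - s7 s24 s13 s27 g04 t3b g00 g13 s21 t3d g14 g03 g24 t3a t3c g27 t4c t4d s9 g23 s0; omega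
                        · rcases s14 with s14 | s14 | s14
                          · rcases t2 with ⟨t2a, t2b, t2c, t2d⟩ | ⟨t2a, t2b, t2c, t2d⟩ | ⟨t2a, t2b, t2c, t2d⟩ | t2
                            · rcases s19 with s19 | s19 | s19
                              · rcases s12 with s12 | s12 | s12
                                · clear * - t3a t2a g00 s12 t2d t4a t3d t4d s19 g10; omega
                                · rcases s13 with s13 | s13 | s13
                                  · rcases t1 with ⟨t1a, t1b, t1c, t1d⟩ | ⟨t1a, t1b, t1c, t1d⟩ | ⟨t1a, t1b, t1c, t1d⟩ | t1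
                                    · rcases t0 with ⟨t0a, t0b, t0c, t0d⟩ | ⟨t0a, t0b, t0c, t0d⟩ | ⟨t0a, t0b, t0c, t0d⟩ | t0
                                      · clear * - t4c t0b t3c t2b s7 t1b; omega
                                      · clear * - t4c t3b t0d t4b t1c t3d t2c t2d t4a t3c s18 s9 t1b s13 t1a; omega
                                      · clear * - t1d t1a t0d s7 t4b s13 s18 t2c t2d t4c t0a t2b t3d t1b t4a t3c s14; omega
                                      · clear * - s7 s24 t0 s18 s14 s13 t2a t4d t1b t2c t2d t1a t4b t3d t1d t2b t4c t4a t3c; omega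
                                    · clear * - s7 t4d g00 t4a t3b t1d g01 t2d s14 s12 t3c t3d t3a t4c s19 t2a t2b; omega
                                    · clear * - s7 s24 g01 s13 g03 g04 t1d t3b t4d t2d t2a t3c t3d s14 t2b t4c t1a t4a s12; omega
                                    · clear * - s7 s24 g03 t2a g07 s12 t1 t3a t2d t4d t3c t3d s14 g06 t4c t4a s19 t2b t3b; omega
                                  · clear * - s13 t4b s18 t3b t2c g01 t2b t3c t4c g11; omega
                                  · clear * - s24 g04 s13 t3a g02 s9 g13 s21 t2c t2d g03 t3c t3d t3b t4c t4d t2a s0; omega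
                                · clear * - s24 g03 s12 g13 t2c t3c t3d t2a t4c t4d s0; omega
                              · rcases s13 with s13 | s13 | s13
                                · rcases t0 with ⟨t0a, t0b, t0c, t0d⟩ | ⟨t0a, t0b, t0c, t0d⟩ | ⟨t0a, t0b, t0c, t0d⟩ | t0
                                  · clear * - t2c t0a t2d t4b s19 t3c s14 t3d t0b t4a g14; omega
                                  · rcases s12 with s12 | s12 | s12
                                    · clear * - s18 t0d s16 t0a s12 g17 t4b t2c s15 t3c s19 t3d t4a t2d g16; omega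
                                    · clear * - t0d s16 s13 t4b t2c g17 s12 t4a t3c t3b t3d t4c t2b t2d s19; omega
                                    · clear * - t0c s12 g13 t4c t2c t3c s0; omega
                                  · clear * - t0a t2c t3c g11 t4b s16 s18; omega
                                  · rcases t1 with ⟨t1a, t1b, t1c, t1d⟩ | ⟨t1a, t1b, t1c, t1d⟩ | ⟨t1a, t1b, t1c, t1d⟩ | t1
                                    · clear * - t0 s13 s14 t1a t2c t2d t4b t1d t3c t3d t4a s18 t1b s19 s15; omega
                                    · clear * - t0 s13 s14 t1a t1d t4a s15 t2c t2d t3c t3d t4b s19 s16; omega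
                                    · clear * - t0 s14 s19 t1a s13 t1d t2c t2d t4b t3c t3d t4a s16; omega
                                    · clear * - t0 s13 s14 t4b t1 s19 t2c t2d t3c t3d t4a t4c s16 s0; omega
                                · clear * - s18 g01 t2b t2c t3b g11 s13 t4b t3c t4c; omega
                                · clear * - s13 g04 g01 s9 g13 s21 t3a t2c t2d t3c t4c t4d t3b s0; omega
                              · clear * - s7 t4a s19 g04 g14 s15 t2d t3c t3d t4c t2b; omega
                            · clear * - s7 s18 g03 s15 g11 g01 g14 t2d g00 t4b t3c t3d s14 t4c t4a s16; omega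
                            · clear * - s24 g00 g11 g03 s14 t4d g01 s7 t2a t4c t2d t4b t3c g16 t3d s15 t4a s16 s18; omega
                            · clear * - s24 t4a g03 g00 g14 s14 s15 t3d t3c s18 t4d t4b t2 g16; omega
                          · rcases s17 with s17 | s17 | s17
                            · clear * - s24 t4d t3b g03 s9 g04 t3a s17 g17 g01 t3d s14 t4c g27; omega
                            · clear * - g11 t3b t4b g01 t3c g21 t4c s17 s14; omega
                            · clear * - s24 s17 g05 g13 g23 t3c t3d t4c t4d s0; omega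
                          · clear * - s7 s24 g03 s14 s6 t4a t3c g14 s15 g27 g24 g01 g04 t3d g17 t4c t4d s0; omega
                        · clear * - s24 g03 s18 t3c g23 g15 t3d t4c t4d s0; omega
                      · rcases s10 with s10 | s10 | s10
                        · rcases s20 with s20 | s20 | s20
                          · clear * - s20 t4b s21 t3a g13 g24 g06 t3c t4d; omega
                          · rcases s28 with s28 | s28 | s28
                            · rcases s19 with s19 | s19 | s19
                              · rcases s22 with s22 | s22 | s22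
                                · rcases t2 with ⟨t2a, t2b, t2c, t2d⟩ | ⟨t2a, t2b, t2c, t2d⟩ | ⟨t2a, t2b, t2c, t2d⟩ | t2
                                  · clear * - s7 g07 g11 t4b s6 s10 t2a t4c t3c t3d t4a g14 s20 t2b; omega
                                  · clear * - s10 g07 t4b t3b s15 t2a t2d g06 g11 t3c t3d t4a g14 t4c s9 s16 s21; omega
                                  · clear * - s21 s10 t4b s22 g07 t3a t4d t2a g13 g10 t2d t3c t3b s9 t3d t4a t4c s16; omega
                                  · rcases t0 with ⟨t0a, t0b, t0c, t0d⟩ | ⟨t0a, t0b, t0c, t0d⟩ | ⟨t0a, t0b, t0c, t0d⟩ | t0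
                                    · clear * - s7 s10 g10 s21 s28 s9 g13 t3c t4a t0a t2 t4b g14 t3d t0b t4d t4c t3b; omega
                                    · clear * - s7 t0a t0d t3d g11 g10 g13 t3c t2 s10 t4b t4c s21 s15 s16 t4a; omega
                                    · clear * - s24 t0a s21 t0d g10 t4b g13 t2 s15 t4a t3d t3c s10 t4d s16; omega
                                    · clear * - s7 t0 t4b g11 g14 s10 s15 t4a t3c t2 t4c s16 t3d s21; omega
                                · clear * - s28 g27 s22 g03 g26 g14 g24 t4b g10 t4a t3c t3d t4d s10 s16 g20 g11; omega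
                                · clear * - s7 g27 g03 s22 s27 s10 s6 g01 g23 t4a g14 g24 g04 g17 t3c t3d s28 t4c t4d g16 s0; omega
                              · clear * - s20 t4d t4b g03 g13 g01 g24 g11 t3c t3d s28 g21 s19; omega
                              · clear * - s7 g13 t3c s19 s27 g04 t4a t3b g06 g14 s15 g24 t3d g23 s28 t4c t4d s9 s24; omega
                            · clear * - g27 s24 t4d s9 s28 g13 t3c t4b s7 t3d g11 t4c s16 g07 t3b; omega
                            · clear * - s24 g03 s28 g13 t3c t3d t4c t4d g27 s0; omega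
                          · clear * - s24 g03 s20 g27 g13 t3c t3d t4c t4d s0; omega
                        · clear * - s10 t3b s21 g01 g11 t3c t4b g21 t4c; omega
                        · clear * - s24 g03 s10 t3c g23 t3d g15 t4c t4d s0; omega
                      · clear * - s7 s24 t3c s21 t3b g04 g07 t4a s27 g14 g23 g13 s15 s9 g03 t3d g24 g25 t4c t4d g27 s0; omega
                    · clear * - s24 t3c s9 g05 g23 g13 t3d t4c t4d s0; omega
                  · clear * - s7 s24 g07 g17 g27 t4d g03 g01 t3c t3d s16 s6; omega
                  · clear * - s7 s24 g00 g26 g14 t4a g10 g21 g01 g11 g24 g23 t3d t3c s16 g17 t4d s15 s6; omega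
                  · clear * - s7 s24 g00 g11 t4 g10 g01 g24 g26 t3c t3d g06 s16 g27 s15 g16 g20; omega
                · clear * - s7 s24 g03 s6 g44 g13 t3c s15 g24 g04 t3d g23 s16 g43 g14; omega
              · clear * - t3b g21 g11 g01 t3c s16 g41 s15; omega
              · clear * - s7 t3c s15 s27 g04 g07 g27 g11 g21 g14 g43 g24 g41 t3d s16 g01 g44 g12; omega
            · clear * - s24 g44 g17 g23 t3d t3b s27 g06; omega
            · clear * - s7 s24 s27 g17 t3d g13 t3c g14 g23 g03 g21 s16 g44 g41 g07 g26; omega
          · clear * - s24 g44 g13 g23 g03 t3d s16; omega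
          · clear * - s24 g13 g44 t3a g23 g03 t3c s16; omega
          · clear * - s24 g13 g44 t3 g23 g03 s16; omega
        · clear * - s24 g03 s16 g13 g23 g30 g41 g33 g44 s0; omega
      · clear * - s7 s24 g15 g30 g43 g33 g25 g44 g05 s0; omega
    · rcases s7 with s7 | s7 | s7
      · rcases s31 with s31 | s31 | s31
        · rcases s2 with s2 | s2 | s2
          · rcases s28 with s28 | s28 | s28
            · clear * - s2 g10 s28 g03 g20 g23 g36 g13 s24 g46; omega
            · clear * - g00 g26 s2 g10 g03 s31 g11 s28 g46 g36; omega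
            · clear * - s28 g03 g13 g04 g23 g24 g10 s31 s24 g34 g44; omega
          · rcases s29 with s29 | s29 | s29
            · rcases s6 with s6 | s6 | s6
              · rcases s25 with s25 | s25 | s25
                · clear * - g00 s6 g10 g20 s25 g30 g40; omega
                · rcases s14 with s14 | s14 | s14
                  · rcases s17 with s17 | s17 | s17
                    · clear * - g00 g10 g20 s17 g30 g40 s14; omega
                    · rcases t2 with ⟨t2a, t2b, t2c, t2d⟩ | ⟨t2a, t2b, t2c, t2d⟩ | ⟨t2a, t2b, t2c, t2d⟩ | t2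
                      · rcases t1 with ⟨t1a, t1b, t1c, t1d⟩ | ⟨t1a, t1b, t1c, t1d⟩ | ⟨t1a, t1b, t1c, t1d⟩ | t1
                        · rcases s5 with s5 | s5 | s5
                          · clear * - s25 g00 g46 t1c s29 t2c g04 t2d t1a g36 s5; omega
                          · rcases t0 with ⟨t0a, t0b, t0c, t0d⟩ | ⟨t0a, t0b, t0c, t0d⟩ | ⟨t0a, t0b, t0c, t0d⟩ | t0
                            · clear * - t0b t0a s5 s6 t1c t1d t2c t2d t2b s24 g37 s25 g47 t0c; omega
                            · clear * - s25 t0d s5 g46 t1c t1d s29 g36 t2d t2c t0a s24 t2b g47 s6 g37 t1a; omega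
                            · clear * - s24 s7 s2 t0d g37 s29 t1d t1a t2c t2d t1b s25 t0a g46 g47 s6 g36 t1c; omega
                            · rcases t4 with ⟨t4a, t4b, t4c, t4d⟩ | ⟨t4a, t4b, t4c, t4d⟩ | ⟨t4a, t4b, t4c, t4d⟩ | t4
                              · clear * - g36 s7 s17 t0 t1c t1d t2c t2d t4b g30 s24 g31 g33 s14 s6 t4a; omega
                              · clear * - s25 s6 t0 t1c t1d s29 t2c t2d t1a t1b g30 g31 t4a t4d s2 s0; omega
                              · clear * - s25 s6 t0 t1c t1d s29 t2c t2d g36 t1b t1a g31 t4a t4d s2 g30; omega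
                              · clear * - s25 s6 t0 g31 t1c t1d s29 t2c t2d t1b g30 t1a t4 s2 s0; omega
                          · clear * - s25 s6 s5 g04 t1c t1d t2c t2d s31 g03 g33 g05 g34 g43 g44 s0; omega
                        · clear * - s25 s7 s6 g00 s2 g01 t1d t2c g37 t2d g36 g33 s14 g47 g31; omega
                        · clear * - s25 s7 s6 g00 g31 g40 g01 t1d t2c t2d g41 g04 s2 g30 t1a g36 g46 s29; omega
                        · clear * - s25 s7 s6 g00 t1 s2 g01 s29 t2c t2d g36 g04 g31 g33 g41 g46 g43; omega
                      · clear * - s25 s6 g00 g10 s2 g01 s29 g11 g30 t2d g31 g40 g41; omega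
                      · clear * - s6 g03 s2 g14 t2c g33 g43 t2a; omega
                      · clear * - s25 s6 g00 g10 s2 g01 s29 t2 g11 g30 g31 g40 g41; omega
                    · clear * - s25 s17 g13 s29 g23 g04 g34 g20 g44 g33; omega
                  · clear * - g14 s6 s14 g03 g36 g24 g43; omega
                  · clear * - g03 s6 s14 s2 g14 g32 g21 g24 g33 g43; omega
                · clear * - s25 g13 g04 g03 s29 g23 s24 g34 g44 g20; omega
              · rcases s25 with s25 | s25 | s25
                · rcases t0 with ⟨t0a, t0b, t0c, t0d⟩ | ⟨t0a, t0b, t0c, t0d⟩ | ⟨t0a, t0b, t0c, t0d⟩ | t0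
                  · rcases t1 with ⟨t1a, t1b, t1c, t1d⟩ | ⟨t1a, t1b, t1c, t1d⟩ | ⟨t1a, t1b, t1c, t1d⟩ | t1
                    · rcases t2 with ⟨t2a, t2b, t2c, t2d⟩ | ⟨t2a, t2b, t2c, t2d⟩ | ⟨t2a, t2b, t2c, t2d⟩ | t2
                      · rcases t4 with ⟨t4a, t4b, t4c, t4d⟩ | ⟨t4a, t4b, t4c, t4d⟩ | ⟨t4a, t4b, t4c, t4d⟩ | t4
                        · rcases t3 with ⟨t3a, t3b, t3c, t3d⟩ | ⟨t3a, t3b, t3c, t3d⟩ | ⟨t3a, t3b, t3c, t3d⟩ | t3
                          · clear * - t0d t1d t3a t2d s7 t4a; omega
                          · clear * - t1d t2d t3a s7 t0d t4a; omega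
                          · clear * - t0c t0d s6 t1c t1d t2b t1a t2c t2d s25 t4a s24 t4c t3d t3a t4b t4d t1b s7 t2a; omega
                          · rcases s14 with s14 | s14 | s14
                            · clear * - t4a t0c t0d s6 t1c t1d t2b s14 t2c t2d t1b s24 t3 s7 t0a t4c t4b; omega
                            · clear * - t0c t0d s6 t1c t1b t2b t1a t2c t2d s25 t1d s24 t3 s7 t4d t4a t4c t4b s14 t2a; omega
                            · clear * - t0d t1d t2d s31 s14 t3 t4d; omega
                        · clear * - t0c t0d s6 t1c t1b t2d t4a t2c t1d s25 t2b s24 g30 s7 g31 t4d t1a t2a; omega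
                        · clear * - t0c t0d s6 t1c t1b t2b t2c t2d s25 t1d s24 g30 s7 g31 t4d t1a t4a t2a; omega
                        · clear * - t0c t0d s6 t1c t1b t2b t2c t2d s25 t1d s24 g30 s7 g31 t4 t1a t2a; omega
                      · clear * - t0c t0d t1c t1d s6 t2d g47 s24 g37 s7 g43 g33 g41 t1b g31 s0; omega
                      · clear * - t2d t0d s25 t1c t1d g30 g47 s7 g40 t1a g31 g41 s24 s6 g34 g37 g44 t0c t1b t2a; omega
                      · clear * - t0c t0d t2 t1c t1d s25 g41 s7 s6 g46 s24 g31 t1b g33 g36 t1a g43; omega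
                    · clear * - t0c t0d g21 t1d t1a g20 s7 s6 s25 s24 g24 g37 g40 g31 g33 g41 g47 g36; omega
                    · clear * - t0c t0d s7 t1a t1d g20 s6 g46 s25 g21 g23 s24 g30 g31 g41 g40 g36; omega
                    · clear * - t0c t0d t1 s7 g23 g21 s6 s25 g20 g31 s24 g33 g46 g41 g36 g43; omega
                  · clear * - t0d g10 s7 g20 s6 g11 s25 s24 g21 g30 g31 g41 g40; omega
                  · clear * - s7 t0c g14 g24 t0a g43 g33 s6; omega
                  · clear * - s7 t0 g10 g11 g20 s6 s25 g21 s24 g30 g31 g40 g41; omega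
                · clear * - s25 g01 s6 g11 g21 g31 g41; omega
                · clear * - s25 g04 g13 g01 s29 g24 g23 s24 g44 g34; omega
              · clear * - s7 g03 s6 s2 g14 g00 g24 g21 g33 g43; omega
            · clear * - s29 g41 s2 g11 g21 g31 g01; omega
            · clear * - s29 g04 g13 g01 g14 g24 s24 g23 s31 g34 g44; omega
          · clear * - s7 g03 s2 g14 g11 g00 g23 g24 g33 g43 s0; omega
        · clear * - s31 g01 g11 g21 g31 g41 s0; omega
        · clear * - s7 s31 g04 g13 g14 g01 g21 g24 g47 s24 g37 s0; omega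
      · clear * - s7 g01 g11 g21 s24 g31 g41; omega
      · rcases s1 with s1 | s1 | s1
        · clear * - s7 g04 s1 g13 g14 g01 g23 g22 g33 g43 s0; omega
        · clear * - s7 s1 g04 g25 g43 g33 g15; omega
        · clear * - s1 g23 g13 g43 g33 g05 s0; omega
    · clear * - s24 g03 g13 g23 g45 g35 s0; omega
  · rcases s24 with s24 | s24 | s24
    · rcases s7 with s7 | s7 | s7
      · clear * - s7 s24 g00 g10 g20 g30 g40; omega
      · rcases s29 with s29 | s29 | s29
        · rcases s27 with s27 | s27 | s27
          · rcases s30 with s30 | s30 | s30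
            · rcases s8 with s8 | s8 | s8
              · rcases s22 with s22 | s22 | s22
                · clear * - s7 g03 g40 g14 g13 g33 s22 g24 g23 g30 g43 s8 g07 s0; omega
                · clear * - s7 g03 s22 s29 g06 s27 g26 g16 g13 g46 g23 g30 g27 g33 g43 s8 g40 s0; omega
                · clear * - s7 g23 g26 s29 g03 g04 s22 s27 g14 s30 g13 g24 g30 g16 g33 g43 g32 s8 g44 g40 s0; omega
              · clear * - g03 s24 s8 g34 g23 g40 g32 g13 g43 s0; omega
              · rcases t4 with ⟨t4a, t4b, t4c, t4d⟩ | ⟨t4a, t4b, t4c, t4d⟩ | ⟨t4a, t4b, t4c, t4d⟩ | t4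
                · clear * - s24 t4d g03 g13 s8 g23 g34; omega
                · rcases s15 with s15 | s15 | s15
                  · clear * - s7 s24 t4d g16 g03 g04 g26 g14 g13 s8 g24 g23 g06 t4a g34 g33 t4c s15; omega
                  · clear * - g16 s29 g04 g26 s27 s30 g14 g06 g24 g34 s15 t4d; omega
                  · clear * - s7 s15 s29 g04 s27 g14 g26 s30 g34 g24 g16 g31 t4c t4d g06; omega
                · clear * - s24 g03 g13 s8 g23 g34 t4c; omega
                · clear * - s24 g03 g13 s8 g23 g34 t4; omega
            · clear * - g03 s24 s30 g26 g16 g34 g44; omega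
            · clear * - s7 s24 g13 s29 g03 g04 s27 g14 s30 g23 g24 g12 g33 g34 g43 g44 g16 g22 s0; omega
          · clear * - s24 g23 s27 g44 g34 g06 g16; omega
          · clear * - s7 s24 s27 s29 g04 g02 g13 g15 g23 g16 g03 g24 g33 g06 g43 g34 g12 g44 s0; omega
        · clear * - s24 g13 s29 g34 g26 g44 g06; omega
        · clear * - s7 s24 s29 g06 g04 g03 g13 g11 g23 g33 g24 g34 g43 g25 g26 g44 g05 s0; omega
      · rcases s16 with s16 | s16 | s16
        · rcases s15 with s15 | s15 | s15
          · clear * - g40 g00 s15 g20 g30 s16 g10; omega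
          · clear * - s7 s24 g06 s15 g34 g26 g32 g40 g43 g16; omega
          · rcases s2 with s2 | s2 | s2
            · clear * - s7 s15 g10 g32 g25 g12 g35 g42 s2 g43 g05 g33 s0; omega
            · clear * - g03 s2 g13 g33 g23 s16 g43 g11 g40 s0; omega
            · rcases s18 with s18 | s18 | s18
              · rcases s21 with s21 | s21 | s21
                · rcases t3 with ⟨t3a, t3b, t3c, t3d⟩ | ⟨t3a, t3b, t3c, t3d⟩ | ⟨t3a, t3b, t3c, t3d⟩ | t3
                  · clear * - g25 s24 g40 s21 g06 g15 g16 g42 g26 g05 t3a t3c t3d s18 s7 s15 s0; omega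
                  · clear * - g26 g42 g00 s21 g06 g10 g40 g20 t3b t3a s18 g16 s15; omega
                  · clear * - g05 s24 g00 s21 g06 g10 t3b g15 g20 g26 g25 g16 t3c g40 s18 g42 s15 s0; omega
                  · clear * - s7 s24 s21 g06 g40 g16 g15 t3 g26 s15 s18 g42 g05 g25 s0; omega
                · clear * - s7 g15 s21 g04 s15 s16 g33 g13 g23 g44 g32 g24 g42 g03 g14 s18 g12 s0; omega
                · clear * - g25 s2 g32 g44 g33 s21 g42 g15 g05 s16; omega
              · clear * - g03 s18 g13 g33 g23 g42 s16 g11 g44 s0; omega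
              · clear * - g44 g23 g03 s16 g33 s18 g15; omega
        · clear * - g03 s24 s16 g13 g23 g30 g33 g42 g44 s0; omega
        · rcases s15 with s15 | s15 | s15
          · rcases t3 with ⟨t3a, t3b, t3c, t3d⟩ | ⟨t3a, t3b, t3c, t3d⟩ | ⟨t3a, t3b, t3c, t3d⟩ | t3
            · clear * - s7 s24 g00 g40 s15 g12 s16 g42 g20 g22 g02 t3d g10; omega
            · rcases s25 with s25 | s25 | s25
              · rcases t4 with ⟨t4a, t4b, t4c, t4d⟩ | ⟨t4a, t4b, t4c, t4d⟩ | ⟨t4a, t4b, t4c, t4d⟩ | t4
                · clear * - s7 s24 g00 s25 g05 t3c g02 g25 t3d t4d g15 s16; omega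
                · rcases s10 with s10 | s10 | s10
                  · rcases s21 with s21 | s21 | s21
                    · clear * - g20 g00 t4a s10 s21 g10 t3d t4d t3a; omega
                    · clear * - s7 g13 s24 s21 g04 s15 g14 g03 g24 g23 t4a t4d t3c t3d t4c g11 s0; omega
                    · rcases s9 with s9 | s9 | s9
                      · clear * - s7 g00 g04 t4c g13 g10 g12 s21 g25 t4a t3c g02 t4b t3d s10 s16 s9; omega
                      · clear * - s24 s9 g04 g13 s25 g01 s21 t4b g23 g03 t3c t3d t4c t4d g27 s0; omega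
                      · rcases s12 with s12 | s12 | s12
                        · clear * - t4d s25 g13 g24 g05 s21 t4a t3c g06 g20 t4b t3d g22 s16 s12; omega
                        · clear * - g03 s24 s12 g13 g21 s16 t4b t3c t3d g23 t4c t4d s0; omega
                        · rcases s18 with s18 | s18 | s18
                          · rcases s11 with s11 | s11 | s11
                            · rcases t2 with ⟨t2a, t2b, t2c, t2d⟩ | ⟨t2a, t2b, t2c, t2d⟩ | ⟨t2a, t2b, t2c, t2d⟩ | t2
                              · clear * - s10 s21 s15 g00 g05 g13 g10 t4b t2d t2a t3c t3d t4a s16; omega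
                              · clear * - s24 s25 t4a g13 g10 t2b g06 t2a s10 t3c t4b t3d t4d s21; omega
                              · clear * - t4b s15 g04 s21 t4a g13 g10 t2b t2c t3c s10 t3d s16 g05; omega
                              · rcases t0 with ⟨t0a, t0b, t0c, t0d⟩ | ⟨t0a, t0b, t0c, t0d⟩ | ⟨t0a, t0b, t0c, t0d⟩ | t0
                                · clear * - s7 t0d t4b g10 s21 s15 t4a t4c t2 t3c g12 g13 t3d s10 s16 t0a; omega
                                · clear * - s7 s21 t0a g10 t3b g12 t2 s10 t0b t4a t3c g13 t4b t4c t3d s9; omega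
                                · clear * - t4b t0c s16 s15 s7 s21 g10 g12 t2 t3d s10 t3c g13 t4a t0b t4c; omega
                                · clear * - s24 t0 s15 g12 s16 t2 t4a s21 t3c t3d t4b g14 s10 t4d g10; omega
                            · clear * - s7 s11 g04 s15 g23 g14 s24 g24 g25 s10 g13 t3d t3c t4d s25 t4c t4a g03 s0; omega
                            · clear * - s12 s10 g12 t3b s25 t4c g10 g23 s11 g02 g25 g06 t4a t3d t4d g14 g05; omega
                          · clear * - g03 s24 s18 s10 t4a g13 g14 g11 t3c t3d g23 t4c t4d s0; omega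
                          · clear * - s7 t4c g12 s21 t3c g02 t4b g22 s16 s18; omega
                  · clear * - g03 s24 s10 g11 g13 t3c t4b g23 t3d t4c t4d s16 s0; omega
                  · rcases s13 with s13 | s13 | s13
                    · rcases s14 with s14 | s14 | s14
                      · rcases s17 with s17 | s17 | s17
                        · clear * - g00 s14 s17 t4d g20 g10 t3d t4a t3a; omega
                        · clear * - s24 s17 g03 s16 g13 g23 t3c t3d t4b t4c g01 t4d s0; omega
                        · rcases s18 with s18 | s18 | s18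
                          · clear * - g20 g00 t4a g10 s18 t3d t4d t3a s13; omega
                          · clear * - s24 s18 s10 g14 g03 g23 g13 t3c t3d t3b t4c t4d g16 s0; omega
                          · rcases t2 with ⟨t2a, t2b, t2c, t2d⟩ | ⟨t2a, t2b, t2c, t2d⟩ | ⟨t2a, t2b, t2c, t2d⟩ | t2
                            · clear * - s7 s17 g03 s15 g04 s14 t4c g12 t4b t2d t3c g02 t3d s18 g14 t4a; omega
                            · rcases s20 with s20 | s20 | s20
                              · rcases s11 with s11 | s11 | s11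
                                · clear * - t4d t3a g10 t2d t4a t2a s11 g00 t3d s20; omega
                                · clear * - s7 s11 g04 s15 g14 t2c t2d t4a t3c t3d t4c t2b; omega
                                · rcases s12 with s12 | s12 | s12
                                  · rcases s19 with s19 | s19 | s19
                                    · clear * - t3b s17 g03 s18 s11 s14 t4c g16 t2a s12 t2c t2d t4a g06 t3c s19 t3a t3d t4d t4b g15; omega
                                    · clear * - s7 s19 g04 s15 t2b g14 t2d t3c t3d t4c t4a; omega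
                                    · rcases t1 with ⟨t1a, t1b, t1c, t1d⟩ | ⟨t1a, t1b, t1c, t1d⟩ | ⟨t1a, t1b, t1c, t1d⟩ | t1
                                      · clear * - s13 t4b s12 s17 s16 t1d t4a t2c t2d s14 t1a t3c g06 t3d s19 g05; omega
                                      · clear * - s12 t1d s14 t2d g00 t1a t3d t4a s13; omega
                                      · clear * - s17 s13 s18 t1c s14 t4b t2c t2d t3c s12 g06 t1b t3d t4a s19 g05; omega
                                      · clear * - s17 s19 s14 t1 s13 t2c t2d s18 t4b t3c g06 t3d t4a s12 g05; omega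
                                  · clear * - g03 s12 t4d g13 t2c t2d t3c t3a s20 t4c s0; omega
                                  · clear * - t2b s11 t4c t2c t2d t3a g05 s12 t3b t4d g15 s20; omega
                              · clear * - g03 s24 s20 t4d g13 t2c t3c t3d t2a t4c s0; omega
                              · rcases t0 with ⟨t0a, t0b, t0c, t0d⟩ | ⟨t0a, t0b, t0c, t0d⟩ | ⟨t0a, t0b, t0c, t0d⟩ | t0
                                · clear * - g15 t0d s18 g13 t2b t4b t2d t3c s20 t2c t3d t4a s17 s13; omega
                                · rcases t1 with ⟨t1a, t1b, t1c, t1d⟩ | ⟨t1a, t1b, t1c, t1d⟩ | ⟨t1a, t1b, t1c, t1d⟩ | t1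
                                  · clear * - t0c s18 t1d t4a t4b t2c t2d t3c t3d s20 s14 t2b t0a; omega
                                  · clear * - t0a t4d t2a t1a t3d s24; omega
                                  · clear * - t0c t0d t0a t1c t4a s13 t2d t3c t3d s20 s14 t2b t4b; omega
                                  · clear * - t0c t0d t2b s14 t1 s13 t2d t3d t3c t4b t4a s20 t0a; omega
                                · clear * - t4b t0c s18 t2b s14 g10 t2c t2d t3c g12 s13 g13 t3d t4a s20; omega
                                · clear * - s7 s24 t0 g16 t2b t4d g13 s14 t2d t2a t3c t3d s20 t4b t4c t4a g15 s13; omega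
                            · clear * - s13 s24 g00 g03 s15 s14 t4d g16 g15 t2c t3c t4a t3d t4b s16 s18; omega
                            · clear * - s7 s24 g06 s18 s14 t4c t4a g16 t2 t3c s17 t4b g15 t3d t4d g05 s16 s13; omega
                      · clear * - s7 g03 s24 s14 s15 t3c g13 g14 g23 t4a g24 g04 t3d g01 t4c t4d s0; omega
                      · rcases s9 with s9 | s9 | s9
                        · clear * - g00 g03 s15 g26 t4c t4a g16 t3b s14 t3d s9; omega
                        · clear * - s24 s9 g03 s16 g13 g23 t3c t3d t4b t4c g01 t4d s0; omega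
                        · rcases s17 with s17 | s17 | s17
                          · clear * - s7 t3b g04 s9 t4c s14 t3a t4d g15 t3c g02 s17 g25; omega
                          · clear * - s24 s17 g03 g13 s25 t3b g01 g23 g04 t3c t3d t4c s9 t4d s0; omega
                          · clear * - s17 t4c g12 s14 t3b g22 t3c g02 t4b; omega
                    · clear * - s7 s24 s13 g04 s15 g13 g23 g14 g24 g03 t3c t3d g11 t4c t4d t4a s0; omega
                    · rcases s18 with s18 | s18 | s18
                      · clear * - t4c g13 t3b s13 s10 t4d g05 g25 s18 g14 t3a; omega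
                      · clear * - g03 s24 s18 s10 t3c g13 g14 t4d g23 g16 t3d t3b t4c s0; omega
                      · clear * - t4c g12 s13 t3b g22 t3c g02 t4b s18; omega
                · clear * - s7 s24 g00 s15 g26 s25 t4c g16 t3c g06 t3d g04; omega
                · clear * - s7 s24 g00 s15 g02 s16 t4 g20 g12 g25 t3c t3d g22 g10 g15 g05; omega
              · clear * - s7 s24 s25 g04 s15 t3c g14 g44 g23 g24 g03 t3d s16 g43 g13; omega
              · clear * - s24 g13 g44 t3b g23 t3d s25 g05; omega
            · clear * - s7 s24 g00 g40 s15 g12 s16 g42 g20 g22 t3c g02 g10; omega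
            · clear * - s7 s24 g00 s15 g10 g12 g20 g22 t3 g02 s16 g40 g42; omega
          · clear * - s7 s24 g06 s15 g34 g26 g32 g17 g43 g44; omega
          · clear * - g02 s15 g12 g42 g22 g32 s16; omega
    · rcases s7 with s7 | s7 | s7
      · rcases s31 with s31 | s31 | s31
        · rcases s1 with s1 | s1 | s1
          · clear * - s24 g03 g13 g00 g36 s1 g47 g23 g34 g20 g33 s31 g43 g10 g44 s0; omega
          · clear * - s7 s1 g03 g04 g13 g23 g10 g33 g20 g43 s0; omega
          · rcases s2 with s2 | s2 | s2
            · clear * - g03 s24 s2 g00 g13 g31 g20 g23 s31 g10 g33 g41 g43 g36 g46 s0; omega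
            · clear * - s7 s1 g04 g03 s2 g13 g14 g23 g33 g20 g43; omega
            · rcases s4 with s4 | s4 | s4
              · clear * - g03 g04 s24 s1 s4 g10 g00 s2 g14 g13 g46 g23 s31 g34 g33 g20 g43 g44 g36 s0; omega
              · clear * - s7 g04 g03 s2 g14 g13 s4 g23 g33 g24 g43; omega
              · rcases s5 with s5 | s5 | s5
                · rcases s30 with s30 | s30 | s30
                  · clear * - g03 g43 s24 s1 s30 g13 g00 s2 g10 s5 g44 s4 g23 g33 g04 g24 g34 g36 g15 g46; omega
                  · clear * - g10 s24 g43 g36 s30 g04 g03 s2 g13 s5 s4 g23 g16 s31 g34 g24 g44 g33 g46; omega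
                  · clear * - s24 s1 g14 g13 g04 g03 s5 g33 g12 g23 s31 s30 g34 g02 g24 g43 g44 g11 g42 g32; omega
                · clear * - s7 s5 g02 g13 g14 s4 g24 g33 g04 g43; omega
                · rcases t1 with ⟨t1a, t1b, t1c, t1d⟩ | ⟨t1a, t1b, t1c, t1d⟩ | ⟨t1a, t1b, t1c, t1d⟩ | t1
                  · clear * - s7 g04 s5 t1d g24 g43 g33; omega
                  · rcases s29 with s29 | s29 | s29
                    · rcases s25 with s25 | s25 | s25
                      · clear * - s7 s24 s2 g04 g03 t1c s5 t1d s25 t1b g23 g34 g24 t1a g43 g44 g33; omega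
                      · clear * - s7 g00 g04 s25 t1d s29 g24 g46 g23 g36 t1a; omega
                      · clear * - s24 g04 g03 t1c t1d s31 g23 s25 g24 g34 g44; omega
                    · clear * - g04 s29 t1d g34 g24 s31 g44; omega
                    · clear * - s7 s24 g33 g42 g04 g03 t1c t1d t1b s31 g23 s29 g24 g34 g43 g32 g44 s2 s0; omega
                  · clear * - s7 g04 t1c g24 s5 g43 g33; omega
                  · clear * - s7 g04 t1 g24 s5 g33 g43; omega
        · clear * - s7 s31 g04 g14 g24 g46 g36; omega
        · clear * - s31 g42 g02 g12 g22 g32 s0; omega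
      · clear * - s7 s24 g01 g11 g21 g31 g41; omega
      · rcases s16 with s16 | s16 | s16
        · clear * - g03 s24 s16 g13 g31 g23 g33 g42 g44 s0; omega
        · rcases s20 with s20 | s20 | s20
          · clear * - g03 s20 g13 g23 g33 s16 g42 g20 g44 s0; omega
          · rcases s22 with s22 | s22 | s22
            · clear * - s7 s22 g11 g14 s20 g24 g33 g42 g44 g05; omega
            · rcases s17 with s17 | s17 | s17
              · clear * - s17 g04 g42 g23 g33 g03 s16 g44 g13 s0; omega
              · rcases s9 with s9 | s9 | s9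
                · clear * - s7 s24 g04 s9 s17 g33 s22 g30 g25 g41 g03 g23 g27 g15 g00 g17 g43 g13 g42 g34 s0; omega
                · clear * - g41 g01 s9 g11 g21 s22 g31; omega
                · rcases s14 with s14 | s14 | s14
                  · clear * - s7 s14 s22 g07 g30 g14 g33 g41 g43 g24; omega
                  · clear * - g21 g01 s17 s14 g11 g41 g31; omega
                  · rcases t3 with ⟨t3a, t3b, t3c, t3d⟩ | ⟨t3a, t3b, t3c, t3d⟩ | ⟨t3a, t3b, t3c, t3d⟩ | t3
                    · clear * - s7 s24 g17 s17 g07 g25 g05 g41 g15 g27 t3c s14 t3b s22 g42 s9 s0; omega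
                    · clear * - s7 s24 g03 g01 s17 g27 g15 g05 s14 g25 g17 t3c t3b g41 s22 g42 s9 s0; omega
                    · clear * - g04 g21 s17 g02 s14 t3b g22 g12 s16 s9 g17 g41 g03 g25 g13 s22 g42 t3a; omega
                    · clear * - s7 s24 s17 g17 s14 t3 g15 g25 g27 g07 s22 s9 g41 g42 g05 s0; omega
              · clear * - g44 g13 g23 s16 s17 g33 g05; omega
            · clear * - g24 s22 g33 g03 s20 g44 g15; omega
          · clear * - g13 g44 g33 g03 s16 s20 g25; omega
        · rcases t3 with ⟨t3a, t3b, t3c, t3d⟩ | ⟨t3a, t3b, t3c, t3d⟩ | ⟨t3a, t3b, t3c, t3d⟩ | t3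
          · clear * - s24 g23 t3c g13 t3b g03 s16 g44; omega
          · clear * - s24 g23 t3c g13 g03 s16 g44; omega
          · rcases s15 with s15 | s15 | s15
            · clear * - s7 s15 g04 t3c g14 g43 g24; omega
            · rcases s25 with s25 | s25 | s25
              · clear * - s7 s24 g04 s25 s15 g44 t3c g14 g23 g24 g03 t3d s16 g43 g13; omega
              · rcases t4 with ⟨t4a, t4b, t4c, t4d⟩ | ⟨t4a, t4b, t4c, t4d⟩ | ⟨t4a, t4b, t4c, t4d⟩ | t4
                · clear * - s7 s24 t4b s15 s25 t4c g11 g12 g22 g21 t3c g02 g25 t3d g15 s16 g01; omega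
                · clear * - s7 s24 g27 g01 s15 g04 s25 t4c g17 t3c g07 t3d; omega
                · rcases s10 with s10 | s10 | s10
                  · clear * - g03 s24 s16 s10 g10 g13 t3c g23 t4b t3d t4c t4d s0; omega
                  · rcases s21 with s21 | s21 | s21
                    · clear * - g13 s7 s24 g04 s21 s15 g03 g14 g24 t4a g23 t4d t3c t3d t4c g16 s0; omega
                    · clear * - g21 g01 t4a s10 s21 g11 t3d t4d t3a; omega
                    · rcases s17 with s17 | s17 | s17
                      · clear * - s7 s24 g04 s17 s15 g13 g00 s25 g23 g17 g03 t3c t3d t4c t4d t4a g27 s0; omega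
                      · clear * - g04 g25 g13 s21 s17 t3c t4b t4d t3a; omega
                      · rcases s8 with s8 | s8 | s8
                        · clear * - g03 s24 s8 g13 g23 t3c t3d t4c t4d s0; omega
                        · clear * - s7 g01 s15 g13 t4c t4a g11 g21 g22 t3c g02 t4b t3d g14 s16 s8; omega
                        · rcases s22 with s22 | s22 | s22
                          · clear * - g03 s7 s24 s22 s15 t4a g13 g24 g07 g04 g14 g23 t3c t3d t4c t4d s0; omega
                          · rcases s19 with s19 | s19 | s19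
                            · clear * - s7 g04 s19 s15 s24 g14 s25 g27 g23 g13 g24 s10 t4a t3c g03 t4d t4c t3d g25 s0; omega
                            · rcases t2 with ⟨t2a, t2b, t2c, t2d⟩ | ⟨t2a, t2b, t2c, t2d⟩ | ⟨t2a, t2b, t2c, t2d⟩ | t2
                              · clear * - s7 t4d g07 t2b s15 g13 t4c g11 g12 t4a t2c t4b t3a t3c s17 s22 s21 t3d s10; omega
                              · clear * - t4d g07 t4a s15 s21 g13 g11 t2b t2c t4b t3c t3a s22 s10 t3d s16 g05; omega
                              · clear * - t4d s10 s24 s25 g13 t4b g11 g07 t2b t2a t3c s21 t3d t4a; omega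
                              · rcases s14 with s14 | s14 | s14
                                · clear * - g03 s7 s14 s15 s10 g05 g13 g04 g07 s24 g14 t2 t4a t3c t3d t4c t4d s0; omega
                                · clear * - s17 s15 s14 g11 g12 s21 t4a t2 t3c g07 t4b t3d s10 s16 g05; omega
                                · clear * - g05 s24 g01 s15 s17 t4c g11 g12 t4d t3b t4a t2 t3c s22 t4b t3d t3a s14; omega
                            · clear * - g05 t4d g23 t4a s25 g11 g12 t3c g07 t4b t3d s10 g14 s16 s19; omega
                          · clear * - s7 s17 t4c g12 t3c g02 t4b g22 s16 s22; omega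
                  · rcases s13 with s13 | s13 | s13
                    · clear * - s7 s24 g04 s13 s15 g13 g14 g23 g24 g03 t3c t3d g16 t4a t4c t4d s0; omega
                    · rcases s19 with s19 | s19 | s19
                      · clear * - s7 s24 g04 s19 s15 g23 g14 g03 g24 g13 t4a t3c t3d g26 t4c t4d s0; omega
                      · rcases s18 with s18 | s18 | s18
                        · clear * - g03 s7 s24 s18 s10 g13 t3c g14 g23 t3b g25 g04 t3d t3a t4c t4d s19 s0; omega
                        · clear * - g01 t4a s18 g11 t3d g21 t4d s13 t3a; omega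
                        · rcases s12 with s12 | s12 | s12
                          · clear * - g03 s7 s24 s12 s15 g13 g15 t3c s13 g17 g24 g04 t3d g07 g23 t4c t4d t4a s0; omega
                          · clear * - g01 s12 g11 t3d s19 g21 t4d t4a t3a; omega
                          · rcases t2 with ⟨t2a, t2b, t2c, t2d⟩ | ⟨t2a, t2b, t2c, t2d⟩ | ⟨t2a, t2b, t2c, t2d⟩ | t2
                            · clear * - s7 s24 g03 s15 g04 t4a t4c s18 g17 s13 t2c t2b t4d t3c g01 t4b t3d; omega
                            · clear * - g03 g01 g17 s18 t4b t2c t4d t3c s19 t3d t4a t3a s13; omega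
                            · rcases t1 with ⟨t1a, t1b, t1c, t1d⟩ | ⟨t1a, t1b, t1c, t1d⟩ | ⟨t1a, t1b, t1c, t1d⟩ | t1
                              · clear * - s7 s24 g01 t3b t1c t3a t4c t2a t2b s12 t3c g02 s19 t3d t4d t1b; omega
                              · clear * - s7 s24 g04 t1c t2a s12 t2b g03 t4d t3a t3b t3d s19 t1b t3c t4c; omega
                              · rcases t0 with ⟨t0a, t0b, t0c, t0d⟩ | ⟨t0a, t0b, t0c, t0d⟩ | ⟨t0a, t0b, t0c, t0d⟩ | t0
                                · clear * - t2b t0c s18 t4d t4c t4a t1a s13 t2c t2d t3d t3c t0b t2a s7 t4b s24 t1b; omega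
                                · clear * - t0c t4b t1d s15 t2c t2d t3d t3c s13 t1a t1b t4a s18; omega
                                · clear * - t4c t0b t2b t3c t1b s7; omega
                                · clear * - s7 s24 t0 s15 t4b s13 t1d t4d t2c t2a t1b t2b t3c t3d t1a t4a t4c t2d s18; omega
                              · clear * - s7 s24 g01 t3b t2a t4c t1 s12 t3c g02 s19 t2b t3d t4d t3a; omega
                            · clear * - g03 g01 g17 s18 s19 t3a t2 t3c t4a t4b t3d t4d s13; omega
                      · rcases s12 with s12 | s12 | s12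
                        · clear * - g03 s7 s24 s12 s15 g13 g15 t3c s13 g17 g24 g04 t3d g07 g23 t4c t4d t4a s0; omega
                        · rcases s17 with s17 | s17 | s17
                          · clear * - s7 s24 g03 s17 s15 g13 g23 g17 t4a s25 g04 g27 t3c t3d t4c t4d g00 s0; omega
                          · clear * - g04 g23 s19 s17 t4d t3c g15 t4b t3a; omega
                          · rcases t1 with ⟨t1a, t1b, t1c, t1d⟩ | ⟨t1a, t1b, t1c, t1d⟩ | ⟨t1a, t1b, t1c, t1d⟩ | t1
                            · clear * - g07 s12 s15 g04 g23 t1c t1b g24 t3c s17 t4b s19 t3d t4a; omega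
                            · clear * - g24 s15 g04 s19 t1c t1b t4b t3c g23 t3d t4a s12 s16 g05; omega
                            · clear * - s7 s13 s24 g24 g21 t1a t4c t3c g07 t4a t1b t3d s12 t4d; omega
                            · rcases s14 with s14 | s14 | s14
                              · clear * - g03 s7 s24 s14 s15 g02 t1 t3c s12 t4a g23 g04 t3d g07 t4c t4d g24 s0; omega
                              · clear * - g07 g24 s15 s12 t1 s14 t4b t3c s17 s19 t3d t4a g22 s16 g05; omega
                              · clear * - g05 s24 g01 s15 s12 t4c t1 s17 s14 g22 t3c g02 t4a t4b t3d t4d g21 t3b; omega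
                        · clear * - t4c s19 g12 s12 t3b g22 t3c g02 t4b; omega
                    · rcases s18 with s18 | s18 | s18
                      · clear * - g03 s24 s18 g13 t3c g14 t4d g23 t3d t4b t4c s16 s0; omega
                      · clear * - g13 t4c t3b s13 s10 g05 t4d g25 s18 g14 t3a; omega
                      · clear * - t4c g12 s13 t3b g22 t3c g02 t4b s18; omega
                · clear * - s7 s24 g01 s15 s16 t4 g21 g12 g25 t3c g02 t3d g22 g11 g15 g05; omega
              · clear * - s24 g13 g44 t3b g23 t3d s25 g05; omega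
            · clear * - g02 t3c g22 g12 s15 t3b s16 g42; omega
          · clear * - s24 g13 g44 t3 g23 g03 s16; omega
    · rcases s7 with s7 | s7 | s7
      · rcases s31 with s31 | s31 | s31
        · rcases s2 with s2 | s2 | s2
          · rcases s29 with s29 | s29 | s29
            · clear * - g00 s2 g10 s29 g20 g30 g40; omega
            · clear * - s29 g13 g04 g03 s31 g24 g10 g22 g44 g34 s24; omega
            · clear * - s29 s7 s2 g00 g10 g02 g20 g12 g05 g22 g35 g45 g25 s0; omega
          · clear * - g03 s7 s2 g14 g12 g00 g23 g24 g33 g43 s0; omega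
          · rcases s29 with s29 | s29 | s29
            · rcases s3 with s3 | s3 | s3
              · rcases s28 with s28 | s28 | s28
                · clear * - g00 s28 g10 s3 g20 g30 g40; omega
                · clear * - g03 s28 g13 g00 g23 s29 g24 s24 g34 g44; omega
                · clear * - g24 g00 g10 s2 g02 s29 s28 s3 g12 g13 g32 g44 g36 g45 g35 g25; omega
              · clear * - s7 s3 g04 g14 g02 s2 g23 g24 g33 g43; omega
              · rcases s28 with s28 | s28 | s28
                · rcases t2 with ⟨t2a, t2b, t2c, t2d⟩ | ⟨t2a, t2b, t2c, t2d⟩ | ⟨t2a, t2b, t2c, t2d⟩ | t2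
                  · clear * - g00 s7 s3 s28 s24 g12 g02 g32 g42 t2d g10 g30 g40; omega
                  · rcases t1 with ⟨t1a, t1b, t1c, t1d⟩ | ⟨t1a, t1b, t1c, t1d⟩ | ⟨t1a, t1b, t1c, t1d⟩ | t1
                    · clear * - g00 s7 s3 t1d t2c g02 s24 t2d g35 g45; omega
                    · rcases s14 with s14 | s14 | s14
                      · rcases t4 with ⟨t4a, t4b, t4c, t4d⟩ | ⟨t4a, t4b, t4c, t4d⟩ | ⟨t4a, t4b, t4c, t4d⟩ | t4
                        · rcases s12 with s12 | s12 | s12
                          · clear * - s7 s3 g02 s28 t1c t4a t2c g00 s24 t2d g30 t1d t1a s12 t4d t1b g32; omega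
                          · clear * - s12 g03 s14 t1c t1d t4a t2c t2d s24 g34 t4c; omega
                          · clear * - g34 g03 s28 t1c t1a t2d t2b s12 t4d; omega
                        · rcases s25 with s25 | s25 | s25
                          · rcases s6 with s6 | s6 | s6
                            · clear * - t4b t4a g03 t1a t1c t1d s14 s7 t2c g00 s24 t2d t2a t4d s25 s6 g36; omega
                            · clear * - s6 g03 t1c t2c g33 t4c s0; omega
                            · rcases t3 with ⟨t3a, t3b, t3c, t3d⟩ | ⟨t3a, t3b, t3c, t3d⟩ | ⟨t3a, t3b, t3c, t3d⟩ | t3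
                              · clear * - t4a g03 t1c t1d s14 t2d t2c g02 t4b t1b s6 t3d t4c t2b s24; omega
                              · clear * - g00 s7 t1d t2d t3a t4a; omega
                              · clear * - g03 t2b t1d s14 s6 t3c t2d t1b t4c t4a; omega
                              · clear * - g00 s7 g03 s6 t1c t1d s14 t2c s24 t2d t3 t1b t4b t4c t4a t2b; omega
                          · clear * - s25 g04 t1d t2d g34 s31 t4d; omega
                          · clear * - t4b s7 g04 t1c t1d s14 t2c g00 s24 t2d t4a s25 g36 g05; omega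
                        · rcases s19 with s19 | s19 | s19
                          · clear * - s3 g04 t1d t2a t2c t1b s19 g33 t4c; omega
                          · clear * - s19 s7 g04 t1d g33 t2d t4d; omega
                          · clear * - s7 s3 g02 s28 t1c t1d t4b t2c g00 s24 t2d g30 t1b t1a s19 t4c g32; omega
                        · rcases s21 with s21 | s21 | s21
                          · clear * - s3 g03 g04 t1c s21 t2c s24 t2d t1a g35 t1b t4; omega
                          · clear * - s21 s7 s3 g04 t1d t1b t2c g33 t2d t4; omega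
                          · rcases s9 with s9 | s9 | s9
                            · clear * - s7 s3 g02 s28 t1c t1d t2a g00 t1a s24 t2d g30 t1b s9 t2c t4 g32; omega
                            · clear * - s9 s7 g04 s14 t1c t1d t2c t2d s24 g34 s31 g03 t4 g30; omega
                            · clear * - g34 t1a s7 s28 t1c t1d t2c g02 g35 s24 t2d t2b s21 t4 s9 g36 g06; omega
                      · clear * - s14 g03 s7 s3 s28 t1b t1c t1d g04 t2c s24 t2d g34 t1a g43 g44 g33 s0; omega
                      · rcases s17 with s17 | s17 | s17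
                        · rcases t0 with ⟨t0a, t0b, t0c, t0d⟩ | ⟨t0a, t0b, t0c, t0d⟩ | ⟨t0a, t0b, t0c, t0d⟩ | t0
                          · clear * - t0d g35 s3 t1c t1d t2d t2c g40 s24 t1b s7 g42 s17 t1a t2a; omega
                          · clear * - s14 t0c t0d s28 t2b g40 t2a g36 s17 t1b t2d g43 t1a t0a; omega
                          · clear * - t0c s28 t1c t1d t2c t2d s17 s24 s7 g44 t1a g40 g36 t2a; omega
                          · clear * - t0 s7 s3 t1c t1d s17 t2c t2d s24 t2a g42 g35 t1b t1a g40; omega
                        · clear * - s17 s7 s3 g04 s28 t1c t1d t1b t2c g03 s24 g33 t2d g43 g34 g44 t1a; omega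
                        · clear * - g42 s17 t2c g02 t1c s14 t1b g32 t2b; omega
                    · clear * - g00 s7 g03 s28 t1c t2c t2d s24 g36 g46; omega
                    · clear * - g00 s7 g03 s28 s24 t2c g36 t2d t1 g46; omega
                  · clear * - g00 s7 s3 s28 s24 g12 t2c g02 g32 g42 g10 g30 g40; omega
                  · clear * - g00 s7 s3 s28 g10 g12 t2 g02 s24 g30 g32 g40 g42; omega
                · clear * - s28 g04 s29 g03 g13 g22 g24 s24 g34 g44; omega
                · clear * - s3 g02 s28 g12 g22 g32 g42; omega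
            · clear * - s29 g04 g13 g02 g14 g24 s24 g23 g34 s31 g44; omega
            · clear * - s29 g42 s2 g12 g22 g32 g02; omega
        · clear * - s7 s31 g04 g13 g14 g02 g22 g24 g46 s24 g36; omega
        · clear * - s31 g02 g12 g22 g32 g42 s0; omega
      · rcases s2 with s2 | s2 | s2
        · clear * - g03 s7 s2 g14 g01 g12 g23 g24 g33 g43 s0; omega
        · rcases s18 with s18 | s18 | s18
          · clear * - g03 s18 s2 g12 g14 g23 g33 g43 g40 s0; omega
          · rcases s26 with s26 | s26 | s26
            · clear * - g03 s26 g12 g14 g23 s24 g34 g33 s18 g44; omega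
            · rcases s5 with s5 | s5 | s5
              · clear * - s5 s7 s2 g13 g04 g03 g23 s26 g11 g24 g31 g41 g43 g33 s0; omega
              · clear * - g01 g11 s5 s26 g31 g21 g41; omega
              · clear * - s5 s7 s2 g01 g11 g02 g35 g21 g12 s24 g25 g22 g45 g05; omega
            · clear * - g44 s26 g03 g23 g14 s18 g35; omega
          · clear * - s2 s18 g03 g23 g14 g33 g45; omega
        · rcases s3 with s3 | s3 | s3
          · clear * - s7 g04 s3 s2 g14 g02 g43 g24 g23 g33; omega
          · rcases s28 with s28 | s28 | s28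
            · rcases s5 with s5 | s5 | s5
              · clear * - s5 s7 g03 g04 s2 g13 g14 g23 g24 g33 g43; omega
              · rcases t2 with ⟨t2a, t2b, t2c, t2d⟩ | ⟨t2a, t2b, t2c, t2d⟩ | ⟨t2a, t2b, t2c, t2d⟩ | t2
                · clear * - g03 s28 g13 t2d s24 g34 g44; omega
                · clear * - g03 s28 g35 g01 t2d s5 t2c s24 g33 g15 s2 g34 g45 g44 g43; omega
                · clear * - g03 s28 g13 t2c s24 g34 g44; omega
                · clear * - g03 s28 g13 t2 s24 g34 g44; omega
              · clear * - s5 g04 g25 g14 s24 g13 g35 s3 g45 g02; omega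
            · clear * - g01 s28 g11 s3 g21 g31 g41; omega
            · clear * - g01 s2 g02 g12 s28 g14 s3 g22 g32 g42 g45 g35 g25; omega
          · rcases t2 with ⟨t2a, t2b, t2c, t2d⟩ | ⟨t2a, t2b, t2c, t2d⟩ | ⟨t2a, t2b, t2c, t2d⟩ | t2
            · clear * - s7 s3 t2c g14 g04 g43 t2b g33; omega
            · clear * - s7 s3 t2c g14 g04 g33 g43; omega
            · rcases s28 with s28 | s28 | s28
              · clear * - g44 s28 t2c g13 g03 s24 g34; omega
              · rcases t1 with ⟨t1a, t1b, t1c, t1d⟩ | ⟨t1a, t1b, t1c, t1d⟩ | ⟨t1a, t1b, t1c, t1d⟩ | t1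
                · clear * - g01 s7 s3 s28 t1c t2c g02 g41 t2d s24 g37 g45 t1b g33; omega
                · clear * - g01 s7 g03 s28 t1c t2c t2d s24 g37 g47; omega
                · rcases s14 with s14 | s14 | s14
                  · clear * - g03 s14 s7 s3 s28 g02 t1c t1d g34 g04 t2c s24 t2d t1a g44 t1b g43 g33 s0; omega
                  · rcases t4 with ⟨t4a, t4b, t4c, t4d⟩ | ⟨t4a, t4b, t4c, t4d⟩ | ⟨t4a, t4b, t4c, t4d⟩ | t4
                    · clear * - g01 s7 s3 s28 t1c t1d t2c s24 t2d g31 g05 g32 t1b t4c t1a t4b; omega
                    · rcases s19 with s19 | s19 | s19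
                      · clear * - s19 s7 g04 s3 t1d t2c t1b t2d g33 t4c t4d; omega
                      · clear * - s3 g04 t1d t2c g33 t2a t1b t4c s19; omega
                      · clear * - g01 s7 s3 s28 t1c t1d t2c g02 s24 t2d g31 t4b g32 t1b t4c t1a s19; omega
                    · rcases s25 with s25 | s25 | s25
                      · clear * - s25 s7 g04 s3 s14 t1c t1d t2c g03 g33 t2d t4b s24 t4c t1b t4a g34 s0; omega
                      · rcases s6 with s6 | s6 | s6
                        · clear * - g03 s6 t1c t2c t4c g33 s0; omega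
                        · clear * - g01 t1a g03 t1c t1d t4b t2c t4d s7 s24 t2d s6 t2a s14 t4a g37 s25; omega
                        · rcases t3 with ⟨t3a, t3b, t3c, t3d⟩ | ⟨t3a, t3b, t3c, t3d⟩ | ⟨t3a, t3b, t3c, t3d⟩ | t3
                          · clear * - g01 s7 g03 s3 t2b t1c t1d s14 s6 t2c g02 t3c t2d t4c t4b t4a t1b s24 t3b; omega
                          · clear * - g01 g03 s6 t1d s14 t2b t3c t2d t1b t4c t4a s7; omega
                          · clear * - g03 t2c t1c t4b t3b s24; omega
                          · clear * - g01 g03 t2b t1b t1d t1c s6 t2c t4b s24 t2d t3 s14 t4c t4a s7; omega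
                      · clear * - g01 s7 g04 t1c t1d t2c t4b s24 t2d s14 g37 t4a s25 g05; omega
                    · rcases s12 with s12 | s12 | s12
                      · clear * - g03 s12 s14 t1c t1d t2c t2d s24 g34 t4; omega
                      · rcases s22 with s22 | s22 | s22
                        · clear * - g03 s22 s3 s14 t1c t1d t2c t2d g34 s24 g02 g33 t4 t1b s0; omega
                        · clear * - g01 s7 s3 t1b t1c t1d t2c s24 t2d g31 t1a t4 s12 s22 g35 g05; omega
                        · clear * - g01 s7 s3 s28 t1c t1d t2c g02 s24 t2d g33 g31 t2b g32 s22 t1b t4 t1a; omega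
                      · clear * - g01 s7 g03 s28 t1c t1d t4 t2d t2b g37 s12 t1a; omega
                  · rcases s17 with s17 | s17 | s17
                    · clear * - s17 s7 g04 s3 s28 g44 t1c t1d g33 t2c g03 g34 s24 t2d t1b t1a g43; omega
                    · rcases t0 with ⟨t0a, t0b, t0c, t0d⟩ | ⟨t0a, t0b, t0c, t0d⟩ | ⟨t0a, t0b, t0c, t0d⟩ | t0
                      · clear * - t0c s28 g37 t1c t1a t2c g41 t2a s24 t1d s7 g44 t0b s17 t2d; omega
                      · clear * - t0c g41 t1c t1d t2c t2d s28 s24 s7 g37 t1a g44 s17 t2a; omega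
                      · clear * - g37 t0c t0d s14 t2b t0a t2d t2a s28 t1a s17 t1b g43 g41; omega
                      · clear * - t0 s7 s28 t2a t1c t1d g37 t2c t2d t1a s24 g41 g44 s17; omega
                    · clear * - t1c s17 t2c g02 g42 g32 s14 t1b t2b; omega
                · clear * - g01 s7 s3 s24 t2c g02 t2d t1 g35 g45; omega
              · clear * - s3 g02 t2c g12 g32 g42 s28 t2b; omega
            · clear * - s7 s3 g33 g14 g04 t2 g43; omega
      · clear * - s7 g02 g12 g22 s24 g32 g42; omega

end Pool.Agent.Lib.MP_0c0609_co
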