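import Mathlib

set_option autoImplicit false

namespace Pool.Agent.Lib.MP_0c0609_co

/-- The disjoint union of the stars `K_{1, m i}`: in component `i` the vertex `none` is the centre
and the vertices `some j` are the leaves. -/
def stars {n : ℕ} (m : Fin n → ℕ) : SimpleGraph (Σ i : Fin n, Option (Fin (m i))) where
  Adj u v := u.1 = v.1 ∧ u.2.isSome ≠ v.2.isSome
  symm := ⟨fun _ _ h => ⟨h.1.symm, h.2.symm⟩⟩
  loopless := ⟨fun _ h => h.2 rfl⟩

/-- Equitable `k`-choosability. -/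
def EquitablyChoosable {V : Type} [Fintype V] (G : SimpleGraph V) (k : ℕ) : Prop :=
  ∀ L : V → Finset ℕ, (∀ v, (L v).card = k) →
    ∃ c : V → ℕ, (∀ v, c v ∈ L v) ∧ (∀ u v, G.Adj u v → c u ≠ c v) ∧
      ∀ a : ℕ, (Finset.univ.filter fun v => c v = a).card ≤ ⌈(Fintype.card V : ℚ) / k⌉₊

end Pool.Agent.Lib.MP_0c0609_co
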