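import Pool.Agent.Lib.MP_0c0609_co.Upper

set_option autoImplicit false

open Finset

namespace Pool.Agent.Lib.MP_0c0609_co

theorem card_vertices {n : ℕ} (m : Fin n → ℕ) :
    Fintype.card (Σ i : Fin n, Option (Fin (m i))) = ∑ i, (m i + 1) := by
  simp [Fintype.card_sigma]

/-- If suitable centre colours always exist then the union of stars is equitably 2-choosable. -/
theorem choosable_of_loads {n : ℕ} (m : Fin n → ℕ)
    (h : ∀ (x y : ∀ i, Fin (m i) → ℕ), (∀ i j, x i j ≠ y i j) → ∀ p q : Fin n → ℕ,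
      (∀ i, p i ≠ q i) → ∃ κ : Fin n → ℕ, (∀ i, κ i = p i ∨ κ i = q i) ∧
        ∀ c, ∑ i, load (x i) (y i) (κ i) c ≤ (∑ i, (m i + 1) + 1) / 2) :
    EquitablyChoosable (stars m) 2 := by
  intro L hL
  choose X Y hXY hL' using fun v => Finset.card_eq_two.1 (hL v)
  obtain ⟨κ, hκ1, hκ2⟩ := h (fun i j => X ⟨i, some j⟩) (fun i j => Y ⟨i, some j⟩)
    (fun i j => hXY _) (fun i => X ⟨i, none⟩) (fun i => Y ⟨i, none⟩) (fun i => hXY _)
  let X' : (Σ i : Fin n, Option (Fin (m i))) → ℕ := fun v =>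
    if v.2.isSome then (if X v = κ v.1 then Y v else X v) else κ v.1
  let Y' : (Σ i : Fin n, Option (Fin (m i))) → ℕ := fun v =>
    if v.2.isSome then (if Y v = κ v.1 then X v else Y v) else κ v.1
  obtain ⟨c, hc1, hc2⟩ := exists_balanced X' Y' ((∑ i, (m i + 1) + 1) / 2)
    (by rw [card_vertices]; omega) (by
      intro a
      refine le_trans ?_ (hκ2 a)
      rw [card_filter, Fintype.sum_sigma]
      refine sum_le_sum fun i _ => ?_
      rw [Fintype.sum_option]
      refine add_le_add ?_ (sum_le_sum fun j _ => ?_)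
      · simp [X', Y']
      · have := hXY ⟨i, some j⟩
        simp only [X', Y', Option.isSome_some, if_true]
        split_ifs <;> omega)
  have hcen : ∀ i, c ⟨i, none⟩ = κ i := by
    intro i
    have := hc1 ⟨i, none⟩
    simpa [X', Y'] using this
  have hleaf : ∀ i j, c ⟨i, some j⟩ ≠ κ i ∧
      (c ⟨i, some j⟩ = X ⟨i, some j⟩ ∨ c ⟨i, some j⟩ = Y ⟨i, some j⟩) := by
    intro i j
    have h1 := hc1 ⟨i, some j⟩
    have h2 := hXY ⟨i, some j⟩
    simp only [X', Y', Option.isSome_some, if_true] at h1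
    split_ifs at h1 <;> omega
  refine ⟨c, ?_, ?_, fun a => ?_⟩
  · rintro ⟨i, _ | j⟩
    · rw [hL', hcen]
      simpa using hκ1 i
    · rw [hL']
      simpa using (hleaf i j).2
  · rintro ⟨i, u⟩ ⟨i', v⟩ ⟨h1, h2⟩
    dsimp only at h1
    subst h1
    rcases u with _ | u <;> rcases v with _ | v
    · exact (h2 rfl).elim
    · rw [hcen]; exact (hleaf i v).1.symm
    · rw [hcen]; exact (hleaf i u).1
    · exact (h2 rfl).elim
  · rw [ceil_half, card_vertices]
    exact hc2 a

theorem load_one (x y : Fin 1 → ℕ) (hxy : ∀ j, x j ≠ y j) (p c : ℕ) : load x y p c ≤ 1 := by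
  have := hxy 0
  unfold load
  simp only [Fin.sum_univ_one]
  split_ifs <;> omega

/-- The family of sizes `3M, 4M, 4M, 5M, 6M, 1, 1, ...`. -/
def fam (M k : ℕ) : Fin (5 + k) → ℕ :=
  Fin.append ![3 * M, 4 * M, 4 * M, 5 * M, 6 * M] fun _ => 1

theorem fam_left (M k : ℕ) (i : Fin 5) :
    fam M k (Fin.castAdd k i) = ![3 * M, 4 * M, 4 * M, 5 * M, 6 * M] i := Fin.append_left _ _ _

theorem fam_right (M k : ℕ) (i : Fin k) : fam M k (Fin.natAdd 5 i) = 1 := Fin.append_right _ _ _

theorem sum_fam (M k : ℕ) : ∑ i, (fam M k i + 1) = 22 * M + 5 + 2 * k := by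
  rw [Fin.sum_univ_add]
  simp only [fam_left, fam_right, Fin.sum_univ_five]
  simp
  ring

theorem load_card_one {J : Type} [Fintype J] (hJ : Fintype.card J = 1) (x y : J → ℕ)
    (hxy : ∀ j, x j ≠ y j) (p c : ℕ) : load x y p c ≤ 1 := by
  obtain ⟨j0, hj0⟩ := Fintype.card_eq_one_iff.1 hJ
  have := hxy j0
  unfold load
  rw [Fintype.sum_eq_single j0 (fun j hj => (hj (hj0 j)).elim)]
  split_ifs <;> omega

theorem fam_choosable (M k : ℕ) : EquitablyChoosable (stars (fam M k)) 2 := by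
  refine choosable_of_loads _ fun x y hxy p q hpq => ?_
  obtain ⟨κ, hκ1, hκ2⟩ := core M (fun i => Fin (fam M k (Fin.castAdd k i)))
    (by simp [fam_left]) (by simp [fam_left]) (by simp [fam_left]) (by simp [fam_left])
    (by simp [fam_left]) (fun i => x (Fin.castAdd k i)) (fun i => y (Fin.castAdd k i))
    (fun i j => hxy _ j) (fun i => p (Fin.castAdd k i)) (fun i => q (Fin.castAdd k i))
    (fun i => hpq _)
  refine ⟨Fin.append κ fun i => p (Fin.natAdd 5 i), fun i => ?_, fun c => ?_⟩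
  · refine Fin.addCases (fun i => ?_) (fun i => ?_) i
    · rw [Fin.append_left]; exact hκ1 i
    · rw [Fin.append_right]; exact Or.inl rfl
  · rw [sum_fam, Fin.sum_univ_add]
    simp only [Fin.append_left, Fin.append_right]
    have h1 := hκ2 c
    have h2 := sum_ind_le (fun i : Fin k => load (x (Fin.natAdd 5 i)) (y (Fin.natAdd 5 i))
      (p (Fin.natAdd 5 i)) c) 1
      (fun i => load_card_one (by simp [fam_right]) _ _ (hxy _) _ _)
    simp only [Fintype.card_fin] at h2
    omega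

theorem fam_pos (M k : ℕ) (hM : 1 ≤ M) (i : Fin (5 + k)) : 1 ≤ fam M k i := by
  refine Fin.addCases (fun i => ?_) (fun i => ?_) i
  · rw [fam_left]
    fin_cases i <;> simp <;> omega
  · rw [fam_right]

end Pool.Agent.Lib.MP_0c0609_co
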