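import Pool.Agent.Lib.MP_0c0609_co.Family

set_option autoImplicit false

open Finset

namespace Pool.Agent.Lib.MP_0c0609_co

theorem count_mod (m r : ℕ) (hr : r < 4) (f : Fin m → ℕ) (a : ℕ)
    (h : ∀ j : Fin m, (j : ℕ) % 4 = r → f j = a) :
    m / 4 ≤ ∑ j, if f j = a then 1 else 0 := by
  rw [← card_filter]
  have := Finset.card_le_card_of_injOn (s := (univ : Finset (Fin (m / 4))))
    (t := univ.filter fun j => f j = a)
    (fun i => (⟨4 * i + r, by have := i.2; omega⟩ : Fin m))
    (fun i _ => by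
      simp only [coe_filter, mem_univ, true_and, Set.mem_ofPred_eq]
      exact h _ (by simp only; omega))
    (fun i _ i' _ hii' => by
      simp only [Fin.mk.injEq] at hii'
      exact Fin.ext (by omega))
  simpa using this

/-- The necessary condition obtained from the adversary's list assignments. -/
def Cond {n : ℕ} (m : Fin n → ℕ) (P : Fin n → Bool) : Prop :=
  ∃ s : Fin n → Bool,
    (∑ i, if P i then m i / 4 else if s i then m i else 1) ≤ (∑ i, (m i + 1) + 1) / 2 ∧
    (∑ i, if P i then m i / 4 else if s i then 1 else m i) ≤ (∑ i, (m i + 1) + 1) / 2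

theorem cond_of_choosable {n : ℕ} (m : Fin n → ℕ) (h : EquitablyChoosable (stars m) 2)
    (P : Fin n → Bool) : Cond m P := by
  let L : (Σ i : Fin n, Option (Fin (m i))) → Finset ℕ := fun v =>
    if P v.1 then
      (match v.2 with
        | none => {3, 4}
        | some j => {3 + (j : ℕ) % 4 / 2, 1 + (j : ℕ) % 2})
    else {1, 2}
  obtain ⟨c, hc1, hc2, hc3⟩ := h L (by
    rintro ⟨i, _ | j⟩
    · simp only [L]; split_ifs <;> rfl
    · simp only [L]
      split_ifs
      · exact card_pair (by omega)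
      · rfl)
  have hadj : ∀ i j, c ⟨i, none⟩ ≠ c ⟨i, some j⟩ := fun i j => hc2 _ _ ⟨rfl, by simp⟩
  have hcount : ∀ a, (∑ i, ((if c ⟨i, none⟩ = a then 1 else 0) +
      ∑ j, if c ⟨i, some j⟩ = a then 1 else 0)) ≤ (∑ i, (m i + 1) + 1) / 2 := by
    intro a
    have := hc3 a
    rw [ceil_half, card_vertices, card_filter, Fintype.sum_sigma] at this
    simpa only [Fintype.sum_option] using this
  have hall : ∀ i a, (∀ j, c ⟨i, some j⟩ = a) → m i ≤ ∑ j, if c ⟨i, some j⟩ = a then 1 else 0 := by
    intro i a ha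
    simp [ha]
  refine ⟨fun i => decide (c ⟨i, none⟩ = 2), le_trans (sum_le_sum fun i _ => ?_) (hcount 1),
    le_trans (sum_le_sum fun i _ => ?_) (hcount 2)⟩
  · have h0 := hc1 ⟨i, none⟩
    have h1 := fun j => hc1 ⟨i, some j⟩
    have h2 := hadj i
    by_cases hP : P i
    · simp only [L, hP, if_true, mem_insert, mem_singleton] at h0 h1 ⊢
      rcases h0 with h0 | h0
      · exact (count_mod (m i) 0 (by omega) _ 1 fun j hj => by
          have := h1 j; have := h2 j; omega).trans (Nat.le_add_left _ _)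
      · exact (count_mod (m i) 2 (by omega) _ 1 fun j hj => by
          have := h1 j; have := h2 j; omega).trans (Nat.le_add_left _ _)
    · simp only [L, hP, mem_insert, mem_singleton, Bool.false_eq_true, if_false,
        decide_eq_true_eq] at h0 h1 ⊢
      rcases h0 with h0 | h0
      · rw [if_neg (by omega), if_pos h0]; omega
      · rw [if_pos h0]
        exact (hall i 1 fun j => by have := h1 j; have := h2 j; omega).trans (Nat.le_add_left _ _)
  · have h0 := hc1 ⟨i, none⟩
    have h1 := fun j => hc1 ⟨i, some j⟩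
    have h2 := hadj i
    by_cases hP : P i
    · simp only [L, hP, if_true, mem_insert, mem_singleton] at h0 h1 ⊢
      rcases h0 with h0 | h0
      · exact (count_mod (m i) 1 (by omega) _ 2 fun j hj => by
          have := h1 j; have := h2 j; omega).trans (Nat.le_add_left _ _)
      · exact (count_mod (m i) 3 (by omega) _ 2 fun j hj => by
          have := h1 j; have := h2 j; omega).trans (Nat.le_add_left _ _)
    · simp only [L, hP, mem_insert, mem_singleton, Bool.false_eq_true, if_false,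
        decide_eq_true_eq] at h0 h1 ⊢
      rcases h0 with h0 | h0
      · rw [if_neg (by omega)]
        exact (hall i 2 fun j => by have := h1 j; have := h2 j; omega).trans (Nat.le_add_left _ _)
      · rw [if_pos h0, if_pos h0]; omega

theorem cond_perm {n : ℕ} (m : Fin n → ℕ) (e : Equiv.Perm (Fin n)) (P : Fin n → Bool)
    (h : Cond m (P ∘ e.symm)) : Cond (m ∘ e) P := by
  obtain ⟨s, h1, h2⟩ := h
  refine ⟨s ∘ e, ?_, ?_⟩
  · rw [← Equiv.sum_comp e, ← Equiv.sum_comp e (fun i => m i + 1)] at h1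
    simpa using h1
  · rw [← Equiv.sum_comp e, ← Equiv.sum_comp e (fun i => m i + 1)] at h2
    simpa using h2

theorem bound4 (m : Fin 4 → ℕ) (hm : Monotone m) (h : ∀ P, Cond m P) : m 3 ≤ 1000 := by
  have h01 : m 0 ≤ m 1 := hm (by decide)
  have h12 : m 1 ≤ m 2 := hm (by decide)
  have h23 : m 2 ≤ m 3 := hm (by decide)
  have hA : (m 3 + m 0 ≤ m 1 + m 2 + 5 ∧ m 1 + m 2 ≤ m 3 + m 0 + 5) ∨
      (m 3 ≤ m 0 + m 1 + m 2 + 5 ∧ m 0 + m 1 + m 2 ≤ m 3 + 5) ∨
      (m 3 + m 1 ≤ m 0 + m 2 + 5) := by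
    obtain ⟨s, h1, h2⟩ := h fun _ => false
    simp only [Fin.sum_univ_four, Bool.false_eq_true, if_false] at h1 h2
    split_ifs at h1 h2 <;> omega
  have h0 : m 0 ≤ 30 := by
    obtain ⟨s, h1, h2⟩ := h ![true, false, false, false]
    simp only [Fin.sum_univ_four, Matrix.cons_val, Bool.false_eq_true, if_false, if_true] at h1 h2
    split_ifs at h1 h2 <;> omega
  have h1 : m 1 ≤ 150 := by
    obtain ⟨s, h1, h2⟩ := h ![false, true, false, false]
    simp only [Fin.sum_univ_four, Matrix.cons_val, Bool.false_eq_true, if_false, if_true] at h1 h2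
    split_ifs at h1 h2 <;> omega
  obtain ⟨s, h1, h2⟩ := h ![false, false, true, false]
  simp only [Fin.sum_univ_four, Matrix.cons_val, Bool.false_eq_true, if_false, if_true] at h1 h2
  split_ifs at h1 h2 <;> omega

theorem bound3 (m : Fin 3 → ℕ) (hm : Monotone m) (h : ∀ P, Cond m P) : m 2 ≤ 1000 := by
  have h01 : m 0 ≤ m 1 := hm (by decide)
  have h12 : m 1 ≤ m 2 := hm (by decide)
  have hA : (m 2 ≤ m 0 + m 1 + 5 ∧ m 0 + m 1 ≤ m 2 + 5) ∨ (m 2 + m 0 ≤ m 1 + 5) := by
    obtain ⟨s, h1, h2⟩ := h fun _ => false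
    simp only [Fin.sum_univ_three, Bool.false_eq_true, if_false] at h1 h2
    split_ifs at h1 h2 <;> omega
  have h0 : m 0 ≤ 30 := by
    obtain ⟨s, h1, h2⟩ := h ![true, false, false]
    simp only [Fin.sum_univ_three, Matrix.cons_val, Bool.false_eq_true, if_false, if_true] at h1 h2
    split_ifs at h1 h2 <;> omega
  obtain ⟨s, h1, h2⟩ := h ![false, true, false]
  simp only [Fin.sum_univ_three, Matrix.cons_val, Bool.false_eq_true, if_false, if_true] at h1 h2
  split_ifs at h1 h2 <;> omega

theorem bound2 (m : Fin 2 → ℕ) (hm : Monotone m) (h : ∀ P, Cond m P) : m 1 ≤ 1000 := by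
  have h01 : m 0 ≤ m 1 := hm (by decide)
  have hA : m 1 ≤ m 0 + 5 := by
    obtain ⟨s, h1, h2⟩ := h fun _ => false
    simp only [Fin.sum_univ_two, Bool.false_eq_true, if_false] at h1 h2
    split_ifs at h1 h2 <;> omega
  obtain ⟨s, h1, h2⟩ := h ![true, false]
  simp only [Fin.sum_univ_two, Matrix.cons_val, Bool.false_eq_true, if_false, if_true] at h1 h2
  split_ifs at h1 h2 <;> omega

theorem bound1 (m : Fin 1 → ℕ) (h : ∀ P, Cond m P) : m 0 ≤ 1000 := by
  obtain ⟨s, h1, h2⟩ := h fun _ => false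
  simp only [Fin.sum_univ_one, Bool.false_eq_true, if_false] at h1 h2
  split_ifs at h1 h2 <;> omega

theorem bound_sorted {n : ℕ} (hn : n ≤ 4) (m : Fin n → ℕ) (hm : Monotone m) (h : ∀ P, Cond m P)
    (i : Fin n) : m i ≤ 1000 := by
  interval_cases n
  · exact i.elim0
  · exact (hm (Fin.le_last i)).trans (bound1 m h)
  · exact (hm (Fin.le_last i)).trans (bound2 m hm h)
  · exact (hm (Fin.le_last i)).trans (bound3 m hm h)
  · exact (hm (Fin.le_last i)).trans (bound4 m hm h)

theorem bound_of_choosable {n : ℕ} (hn : n ≤ 4) (m : Fin n → ℕ)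
    (h : EquitablyChoosable (stars m) 2) (i : Fin n) : m i ≤ 1000 := by
  have := bound_sorted hn (m ∘ Tuple.sort m) (Tuple.monotone_sort m)
    (fun P => cond_perm m _ P (cond_of_choosable m h _)) ((Tuple.sort m).symm i)
  simpa using this

theorem main (n : ℕ) :
    {s : Multiset ℕ | ∃ m : Fin n → ℕ, (∀ i, 1 ≤ m i) ∧ s = Multiset.map m Finset.univ.val ∧
      EquitablyChoosable (stars m) 2}.Finite ↔ n ≤ 4 := by
  constructor
  · intro hfin
    by_contra hn
    obtain ⟨k, rfl⟩ : ∃ k, n = 5 + k := ⟨n - 5, by omega⟩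
    refine Set.infinite_of_injective_forall_mem
      (f := fun M : ℕ => Multiset.map (fam (M + 1) k) Finset.univ.val) ?_ ?_ hfin
    · intro M M' hMM'
      have h1 : ∑ i, fam (M + 1) k i = ∑ i, fam (M' + 1) k i := congrArg Multiset.sum hMM'
      have h2 := sum_fam (M + 1) k
      have h3 := sum_fam (M' + 1) k
      rw [sum_add_distrib] at h2 h3
      omega
    · intro M
      exact ⟨fam (M + 1) k, fam_pos _ _ (by omega), rfl, fam_choosable _ _⟩
  · intro hn
    have h1 : {m : Fin n → ℕ | ∀ i, m i ∈ Set.Iic 1000}.Finite :=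
      Set.Finite.pi' fun _ => Set.finite_Iic _
    refine (h1.image fun m => Multiset.map m Finset.univ.val).subset ?_
    rintro s ⟨m, -, rfl, hm⟩
    exact ⟨m, fun i => bound_of_choosable hn m hm i, rfl⟩

end Pool.Agent.Lib.MP_0c0609_co
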