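import Pool.Agent.Lib.MP_0c0609_co.Defs
import Pool.Agent.Lib.MP_0c0609_co.Arith

set_option autoImplicit false

open Finset

namespace Pool.Agent.Lib.MP_0c0609_co

theorem ceil_half (N : ℕ) : ⌈(N : ℚ) / (2 : ℕ)⌉₊ = (N + 1) / 2 := by
  rcases Nat.even_or_odd' N with ⟨k, rfl | rfl⟩
  · have : ((2 * k : ℕ) : ℚ) / (2 : ℕ) = (k : ℚ) := by push_cast; ring
    rw [this, Nat.ceil_natCast]
    omega
  · have h1 : (2 * k + 1 + 1) / 2 = k + 1 := by omega
    rw [h1, Nat.ceil_eq_iff (by omega)]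
    push_cast
    constructor <;> linarith

/-- Balancing lemma: every vertex has the two (possibly equal) options `x v`, `y v`. -/
theorem exists_balanced {V : Type} [Fintype V] (x y : V → ℕ) (cap : ℕ)
    (hN : Fintype.card V ≤ 2 * cap)
    (hf : ∀ a, (univ.filter fun v => x v = a ∧ y v = a).card ≤ cap) :
    ∃ c : V → ℕ, (∀ v, c v = x v ∨ c v = y v) ∧ ∀ a, (univ.filter fun v => c v = a).card ≤ cap := by
  classical
  by_cases h : ∀ a, (univ.filter fun v => x v = a).card ≤ cap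
  · exact ⟨x, fun v => Or.inl rfl, h⟩
  push Not at h
  obtain ⟨a, ha⟩ := h
  obtain ⟨S, hS1, hS2, hS3⟩ := Finset.exists_subsuperset_card_eq
    (s := univ.filter fun v => x v = a ∧ y v = a) (t := univ.filter fun v => x v = a) (n := cap)
    (fun v hv => by simp only [mem_filter, mem_univ, true_and] at hv ⊢; exact hv.1) (hf a) ha.le
  refine ⟨fun v => if x v = a ∧ v ∉ S then y v else x v, fun v => ?_, fun b => ?_⟩
  · dsimp only
    split_ifs
    · exact Or.inr rfl
    · exact Or.inl rfl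
  · by_cases hb : b = a
    · subst hb
      rw [← hS3]
      refine card_le_card fun v hv => ?_
      simp only [mem_filter, mem_univ, true_and] at hv
      by_contra hvS
      split_ifs at hv with h1
      · exact hvS (hS1 (by simp [h1.1, hv]))
      · exact h1 ⟨hv, hvS⟩
    · have h1 : (univ.filter fun v => (if x v = a ∧ v ∉ S then y v else x v) = b) ⊆ Sᶜ := by
        intro v hv
        simp only [mem_filter, mem_univ, true_and] at hv
        rw [mem_compl]
        intro hvS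
        have h2 : x v = a := (mem_filter.1 (hS2 hvS)).2
        rw [if_neg (fun h => h.2 hvS), h2] at hv
        exact hb hv.symm
      have h3 := card_le_card h1
      rw [card_compl] at h3
      exact h3.trans (by omega)

/-- The number of vertices of a star forced to colour `c` when the centre has colour `p`. -/
def load {J : Type} [Fintype J] (x y : J → ℕ) (p c : ℕ) : ℕ :=
  (if p = c then 1 else 0) +
    ∑ j, if (x j = p ∧ y j = c) ∨ (y j = p ∧ x j = c) then 1 else 0

/-- The number of vertices of a star whose list contains `c`. -/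
def occ {J : Type} [Fintype J] (x y : J → ℕ) (p q c : ℕ) : ℕ :=
  (if p = c ∨ q = c then 1 else 0) + ∑ j, if x j = c ∨ y j = c then 1 else 0

theorem load_le_occ {J : Type} [Fintype J] (x y : J → ℕ) (p q k c : ℕ) (hk : k = p ∨ k = q) :
    load x y k c ≤ occ x y p q c := by
  refine add_le_add ?_ (sum_le_sum fun j _ => ?_)
  · split_ifs <;> omega
  · split_ifs <;> omega

theorem sum_ind_le {J : Type} [Fintype J] (f : J → ℕ) (k : ℕ) (h : ∀ j, f j ≤ k) :
    ∑ j, f j ≤ k * Fintype.card J := by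
  have := Finset.sum_le_card_nsmul univ f k fun j _ => h j
  simpa [mul_comm] using this

theorem occ_four {J : Type} [Fintype J] (x y : J → ℕ) (p q a b c d : ℕ) (hab : a ≠ b)
    (hac : a ≠ c) (had : a ≠ d) (hbc : b ≠ c) (hbd : b ≠ d) (hcd : c ≠ d) :
    occ x y p q a + occ x y p q b + occ x y p q c + occ x y p q d ≤ 2 * Fintype.card J + 2 := by
  have h1 := sum_ind_le (fun j => (if x j = a ∨ y j = a then 1 else 0) +
    (if x j = b ∨ y j = b then 1 else 0) + (if x j = c ∨ y j = c then 1 else 0) +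
    (if x j = d ∨ y j = d then 1 else 0)) 2 (fun j => by split_ifs <;> omega)
  simp only [sum_add_distrib] at h1
  have h2 : (if p = a ∨ q = a then 1 else 0) + (if p = b ∨ q = b then 1 else 0) +
    (if p = c ∨ q = c then 1 else 0) + (if p = d ∨ q = d then 1 else 0) ≤ 2 := by
    split_ifs <;> omega
  unfold occ
  omega

theorem load_pair {J : Type} [Fintype J] (x y : J → ℕ) (hxy : ∀ j, x j ≠ y j) (a b k : ℕ)
    (hab : a ≠ b) (hak : a ≠ k) (hbk : b ≠ k) :
    load x y a a ≤ 1 ∧ load x y b b ≤ 1 ∧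
      load x y a b + load x y a k + load x y b k ≤ Fintype.card J ∧
      load x y b a + load x y a k + load x y b k ≤ Fintype.card J := by
  have h0 : ∀ a, load x y a a ≤ 1 := by
    intro a
    have := sum_ind_le (fun j => if (x j = a ∧ y j = a) ∨ (y j = a ∧ x j = a) then 1 else 0) 0
      (fun j => by have := hxy j; split_ifs <;> omega)
    unfold load
    rw [if_pos rfl]
    omega
  have h1 := sum_ind_le (fun j => (if (x j = a ∧ y j = b) ∨ (y j = a ∧ x j = b) then 1 else 0) +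
    (if (x j = a ∧ y j = k) ∨ (y j = a ∧ x j = k) then 1 else 0) +
    (if (x j = b ∧ y j = k) ∨ (y j = b ∧ x j = k) then 1 else 0)) 1
    (fun j => by split_ifs <;> omega)
  have h2 := sum_ind_le (fun j => (if (x j = b ∧ y j = a) ∨ (y j = b ∧ x j = a) then 1 else 0) +
    (if (x j = a ∧ y j = k) ∨ (y j = a ∧ x j = k) then 1 else 0) +
    (if (x j = b ∧ y j = k) ∨ (y j = b ∧ x j = k) then 1 else 0)) 1
    (fun j => by split_ifs <;> omega)
  simp only [sum_add_distrib] at h1 h2
  refine ⟨h0 a, h0 b, ?_, ?_⟩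
  · unfold load
    rw [if_neg hab, if_neg hak, if_neg hbk]
    omega
  · unfold load
    rw [if_neg hab.symm, if_neg hak, if_neg hbk]
    omega

theorem pt_light (x y p q a b c : ℕ) (hxy : x ≠ y) (hpq : p ≠ q)
    (hab : a ≠ b) (hac : a ≠ c) (hbc : b ≠ c)
    (h : (p ≠ a ∧ p ≠ b ∧ p ≠ c) ∨ (q ≠ a ∧ q ≠ b ∧ q ≠ c)) :
    (if (x = p ∧ y = a) ∨ (y = p ∧ x = a) then 1 else 0) +
    (if (x = p ∧ y = b) ∨ (y = p ∧ x = b) then 1 else 0) +
    (if (x = p ∧ y = c) ∨ (y = p ∧ x = c) then 1 else 0) +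
    (if (x = q ∧ y = a) ∨ (y = q ∧ x = a) then 1 else 0) +
    (if (x = q ∧ y = b) ∨ (y = q ∧ x = b) then 1 else 0) +
    (if (x = q ∧ y = c) ∨ (y = q ∧ x = c) then 1 else 0) ≤ 1 := by
  by_cases h1 : x = p <;> by_cases h2 : y = p <;> by_cases h3 : x = q <;> by_cases h4 : y = q <;>
    first
    | (exfalso; omega)
    | (simp only [eq_true h1, eq_false h2, eq_false h3, eq_true h4, true_and, false_and, or_false,
        false_or]; split_ifs <;> omega)
    | (simp only [eq_true h1, eq_false h2, eq_false h3, eq_false h4, true_and, false_and, or_false,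
        if_false]; split_ifs <;> omega)
    | (simp only [eq_false h1, eq_true h2, eq_true h3, eq_false h4, true_and, false_and, or_false,
        false_or]; split_ifs <;> omega)
    | (simp only [eq_false h1, eq_true h2, eq_false h3, eq_false h4, true_and, false_and, or_false,
        false_or, if_false]; split_ifs <;> omega)
    | (simp only [eq_false h1, eq_false h2, eq_true h3, eq_false h4, true_and, false_and, or_false,
        false_or, if_false]; split_ifs <;> omega)
    | (simp only [eq_false h1, eq_false h2, eq_false h3, eq_true h4, true_and, false_and, or_false,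
        false_or, if_false]; split_ifs <;> omega)
    | (simp only [eq_false h1, eq_false h2, eq_false h3, eq_false h4, false_and, or_false,
        if_false]; omega)

theorem load_light {J : Type} [Fintype J] (x y : J → ℕ) (hxy : ∀ j, x j ≠ y j) (p q a b c : ℕ)
    (hpq : p ≠ q)
    (hab : a ≠ b) (hac : a ≠ c) (hbc : b ≠ c)
    (h : (p ≠ a ∧ p ≠ b ∧ p ≠ c) ∨ (q ≠ a ∧ q ≠ b ∧ q ≠ c)) :
    load x y p a + load x y p b + load x y p c + load x y q a + load x y q b + load x y q c ≤
      Fintype.card J + 1 := by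
  have h1 := sum_ind_le (fun j => (if (x j = p ∧ y j = a) ∨ (y j = p ∧ x j = a) then 1 else 0) +
    (if (x j = p ∧ y j = b) ∨ (y j = p ∧ x j = b) then 1 else 0) +
    (if (x j = p ∧ y j = c) ∨ (y j = p ∧ x j = c) then 1 else 0) +
    (if (x j = q ∧ y j = a) ∨ (y j = q ∧ x j = a) then 1 else 0) +
    (if (x j = q ∧ y j = b) ∨ (y j = q ∧ x j = b) then 1 else 0) +
    (if (x j = q ∧ y j = c) ∨ (y j = q ∧ x j = c) then 1 else 0)) 1
    (fun j => pt_light _ _ _ _ _ _ _ (hxy j) hpq hab hac hbc h)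
  simp only [sum_add_distrib] at h1
  have h2 : (if p = a then 1 else 0) + (if p = b then 1 else 0) + (if p = c then 1 else 0) +
      (if q = a then 1 else 0) + (if q = b then 1 else 0) + (if q = c then 1 else 0) ≤ 1 := by
    split_ifs <;> omega
  unfold load
  omega

theorem exists_starOK {J : Type} [Fintype J] (x y : J → ℕ) (hxy : ∀ j, x j ≠ y j) (p q a b c : ℕ)
    (hpq : p ≠ q) (hab : a ≠ b) (hac : a ≠ c) (hbc : b ≠ c) :
    ∃ p' q', (p' = p ∨ p' = q) ∧ (q' = p ∨ q' = q) ∧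
      StarOK (Fintype.card J) (load x y p' a) (load x y p' b) (load x y p' c)
        (load x y q' a) (load x y q' b) (load x y q' c) := by
  have h01 := load_pair x y hxy a b c hab hac hbc
  have h02 := load_pair x y hxy a c b hac hab hbc.symm
  have h12 := load_pair x y hxy b c a hbc hab.symm hac.symm
  by_cases h : (p ≠ a ∧ p ≠ b ∧ p ≠ c) ∨ (q ≠ a ∧ q ≠ b ∧ q ≠ c)
  · exact ⟨p, q, Or.inl rfl, Or.inr rfl,
      Or.inr (Or.inr (Or.inr (load_light x y hxy p q a b c hpq hab hac hbc h)))⟩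
  · by_cases h1 : (a = p ∨ a = q) ∧ (b = p ∨ b = q)
    · exact ⟨a, b, h1.1, h1.2, Or.inl h01⟩
    by_cases h2 : (a = p ∨ a = q) ∧ (c = p ∨ c = q)
    · exact ⟨a, c, h2.1, h2.2, Or.inr (Or.inl h02)⟩
    · exact ⟨b, c, by omega, by omega, Or.inr (Or.inr (Or.inl h12))⟩

theorem exists_three (P : ℕ → Prop)
    (h : ∀ a b c d, a ≠ b → a ≠ c → a ≠ d → b ≠ c → b ≠ d → c ≠ d → P a → P b → P c → P d →
      False) :
    ∃ a b c, a ≠ b ∧ a ≠ c ∧ b ≠ c ∧ ∀ d, P d → d = a ∨ d = b ∨ d = c := by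
  by_cases h1 : ∃ a, P a
  · obtain ⟨a, ha⟩ := h1
    by_cases h2 : ∃ b, b ≠ a ∧ P b
    · obtain ⟨b, hba, hb⟩ := h2
      by_cases h3 : ∃ c, c ≠ a ∧ c ≠ b ∧ P c
      · obtain ⟨c, hca, hcb, hc⟩ := h3
        refine ⟨a, b, c, hba.symm, hca.symm, hcb.symm, fun d hd => ?_⟩
        by_contra hcon
        push Not at hcon
        exact h a b c d hba.symm hca.symm (Ne.symm hcon.1) hcb.symm (Ne.symm hcon.2.1)
          (Ne.symm hcon.2.2) ha hb hc hd
      · refine ⟨a, b, a + b + 1, hba.symm, by omega, by omega, fun d hd => ?_⟩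
        by_contra hcon
        push Not at hcon
        exact h3 ⟨d, hcon.1, hcon.2.1, hd⟩
    · refine ⟨a, a + 1, a + 2, by omega, by omega, by omega, fun d hd => ?_⟩
      by_contra hcon
      push Not at hcon
      exact h2 ⟨d, hcon.1, hd⟩
  · exact ⟨0, 1, 2, by omega, by omega, by omega, fun d hd => (h1 ⟨d, hd⟩).elim⟩

/-- The core statement about five stars with `3M, 4M, 4M, 5M, 6M` leaves. -/
theorem core (M : ℕ) (J : Fin 5 → Type) [∀ i, Fintype (J i)]
    (h0 : Fintype.card (J 0) = 3 * M) (h1 : Fintype.card (J 1) = 4 * M)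
    (h2 : Fintype.card (J 2) = 4 * M) (h3 : Fintype.card (J 3) = 5 * M)
    (h4 : Fintype.card (J 4) = 6 * M) (x y : ∀ i, J i → ℕ) (hxy : ∀ i j, x i j ≠ y i j)
    (p q : Fin 5 → ℕ) (hpq : ∀ i, p i ≠ q i) :
    ∃ κ : Fin 5 → ℕ, (∀ i, κ i = p i ∨ κ i = q i) ∧
      ∀ c, ∑ i, load (x i) (y i) (κ i) c ≤ 11 * M + 3 := by
  obtain ⟨a, b, c, hab, hac, hbc, habc⟩ := exists_three
    (fun d => 11 * M + 4 ≤ ∑ i, occ (x i) (y i) (p i) (q i) d) (by
      intro a b c d hab hac had hbc hbd hcd ha hb hc hd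
      have := fun i => occ_four (x i) (y i) (p i) (q i) a b c d hab hac had hbc hbd hcd
      have t0 := this 0
      have t1 := this 1
      have t2 := this 2
      have t3 := this 3
      have t4 := this 4
      simp only [Fin.sum_univ_five] at ha hb hc hd
      omega)
  choose p' q' hp' hq' hok using fun i =>
    exists_starOK (x i) (y i) (hxy i) (p i) (q i) a b c (hpq i) hab hac hbc
  by_contra hcon
  push Not at hcon
  have key : ∀ κ : Fin 5 → ℕ, (∀ i, κ i = p' i ∨ κ i = q' i) →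
      11 * M + 4 ≤ ∑ i, load (x i) (y i) (κ i) a ∨ 11 * M + 4 ≤ ∑ i, load (x i) (y i) (κ i) b ∨
        11 * M + 4 ≤ ∑ i, load (x i) (y i) (κ i) c := by
    intro κ hκ
    have hκ' : ∀ i, κ i = p i ∨ κ i = q i := by
      intro i
      have := hκ i
      have := hp' i
      have := hq' i
      omega
    obtain ⟨d, hd⟩ := hcon κ hκ'
    have hd' : 11 * M + 4 ≤ ∑ i, occ (x i) (y i) (p i) (q i) d :=
      le_trans hd (sum_le_sum fun i _ => load_le_occ _ _ _ _ _ _ (hκ' i))
    rcases habc d hd' with rfl | rfl | rfl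
    · exact Or.inl hd
    · exact Or.inr (Or.inl hd)
    · exact Or.inr (Or.inr hd)
  have key' : ∀ k0 k1 k2 k3 k4 : ℕ, (k0 = p' 0 ∨ k0 = q' 0) → (k1 = p' 1 ∨ k1 = q' 1) →
      (k2 = p' 2 ∨ k2 = q' 2) → (k3 = p' 3 ∨ k3 = q' 3) → (k4 = p' 4 ∨ k4 = q' 4) →
      11 * M + 4 ≤ load (x 0) (y 0) k0 a + load (x 1) (y 1) k1 a + load (x 2) (y 2) k2 a +
        load (x 3) (y 3) k3 a + load (x 4) (y 4) k4 a ∨
      11 * M + 4 ≤ load (x 0) (y 0) k0 b + load (x 1) (y 1) k1 b + load (x 2) (y 2) k2 b +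
        load (x 3) (y 3) k3 b + load (x 4) (y 4) k4 b ∨
      11 * M + 4 ≤ load (x 0) (y 0) k0 c + load (x 1) (y 1) k1 c + load (x 2) (y 2) k2 c +
        load (x 3) (y 3) k3 c + load (x 4) (y 4) k4 c := by
    intro k0 k1 k2 k3 k4 e0 e1 e2 e3 e4
    have := key ![k0, k1, k2, k3, k4] (by
      intro i
      fin_cases i
      exacts [e0, e1, e2, e3, e4])
    simp only [Fin.sum_univ_five] at this
    exact this
  have t0 := hok 0
  have t1 := hok 1
  have t2 := hok 2
  have t3 := hok 3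
  have t4 := hok 4
  rw [h0] at t0
  rw [h1] at t1
  rw [h2] at t2
  rw [h3] at t3
  rw [h4] at t4
  refine arith M t0 t1 t2 t3 t4 ?_ ?_ ?_ ?_ ?_ ?_ ?_ ?_ ?_ ?_ ?_ ?_ ?_ ?_ ?_ ?_ ?_ ?_ ?_ ?_ ?_ ?_
    ?_ ?_ ?_ ?_ ?_ ?_ ?_ ?_ ?_ ?_ <;>
  exact key' _ _ _ _ _ (by simp) (by simp) (by simp) (by simp) (by simp)

end Pool.Agent.Lib.MP_0c0609_co
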